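import Pool.Agent.Helper454.Kauf.Defs

set_option autoImplicit false

namespace Pool.Agent.Helper454.Kauf

open LaurentPolynomial Piece

noncomputable section

set_option linter.unusedSectionVars false

instance (w : Word) : Decidable (Closed w) := inferInstanceAs (Decidable (width w 0 = some 0))

theorem width_append (u v : Word) (n : ℕ) : width (u ++ v) n = (width u n).bind (width v) := by
  induction u generalizing n with
  | nil => simp [width]
  | cons p u ih =>
    simp only [List.cons_append, width]
    cases h : p.width n with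
    | none => simp
    | some m => simp [ih]

section
variable {M : Type} [AddCommGroup M] [Module Raz M]

/-- extension by zero to all words -/
def extd (Λ : Word → M) : Word → M := fun w => if Closed w then Λ w else 0

/-- one piece as a linear operator -/
def stL (p : Piece) : (Word → M) →ₗ[Raz] (Word → M) where
  toFun f := fun y => f (p :: y)
  map_add' _ _ := rfl
  map_smul' _ _ := rfl

def st (f : Word → M) (p : Piece) : Word → M := stL p f

theorem st_apply (f : Word → M) (p : Piece) (y : Word) : st f p y = f (p :: y) := rfl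
theorem st_add (f g : Word → M) (p : Piece) : st (f + g) p = st f p + st g p := rfl
theorem st_smul (c : Raz) (f : Word → M) (p : Piece) : st (c • f) p = c • st f p := rfl
theorem st_neg (f : Word → M) (p : Piece) : st (-f) p = -st f p := rfl
theorem st_sub (f g : Word → M) (p : Piece) : st (f - g) p = st f p - st g p := rfl
theorem st_zero (p : Piece) : st (0 : Word → M) p = 0 := rfl

/-- a word as a linear operator -/
def apL (w : Word) : (Word → M) →ₗ[Raz] (Word → M) where
  toFun f := fun y => f (w ++ y)
  map_add' _ _ := rfl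
  map_smul' _ _ := rfl

def ap (f : Word → M) (w : Word) : Word → M := apL w f

theorem ap_nil (f : Word → M) : ap f [] = f := rfl
theorem ap_cons (f : Word → M) (p : Piece) (w : Word) : ap f (p :: w) = ap (st f p) w := rfl

/-- the functionals of tangles of width `n` -/
def S (Λ : Word → M) (n : ℕ) : Submodule Raz (Word → M) :=
  Submodule.span Raz {f | ∃ u : Word, width u 0 = some n ∧ f = ap (extd Λ) u}

theorem eqOn (Λ : Word → M) (n : ℕ) (φ ψ : (Word → M) →ₗ[Raz] (Word → M))
    (h : ∀ u, width u 0 = some n → φ (ap (extd Λ) u) = ψ (ap (extd Λ) u)) :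
    ∀ f ∈ S Λ n, φ f = ψ f := by
  intro f hf
  refine LinearMap.eqOn_span (s := {f | ∃ u : Word, width u 0 = some n ∧ f = ap (extd Λ) u})
    ?_ hf
  rintro g ⟨u, hu, rfl⟩
  exact h u hu

theorem st_mem {Λ : Word → M} {n m : ℕ} {f : Word → M} (hf : f ∈ S Λ n) (p : Piece)
    (h : p.width n = some m) : st f p ∈ S Λ m := by
  have : (S Λ n).map (stL p) ≤ S Λ m := by
    rw [S, Submodule.map_span, Submodule.span_le]
    rintro g ⟨g', ⟨u, hu, rfl⟩, rfl⟩
    refine Submodule.subset_span ⟨u ++ [p], ?_, ?_⟩
    · rw [width_append, hu]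
      simp [width, h]
    · funext y
      show extd Λ (u ++ (p :: y)) = extd Λ ((u ++ [p]) ++ y)
      simp
  exact this (Submodule.mem_map_of_mem hf)

theorem width_birth {i n : ℕ} (h : i ≤ n) : (birth i).width n = some (n + 2) := by
  simp [Piece.width, h]
theorem width_death {i n : ℕ} (h : i + 2 ≤ n) : (death i).width n = some (n - 2) := by
  simp [Piece.width, h]
theorem width_pos {i n : ℕ} (h : i + 2 ≤ n) : (pos i).width n = some n := by
  simp [Piece.width, h]
theorem width_neg {i n : ℕ} (h : i + 2 ≤ n) : (neg i).width n = some n := by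
  simp [Piece.width, h]

theorem birth_mem {Λ : Word → M} {n : ℕ} {f : Word → M} (hf : f ∈ S Λ n) {i : ℕ} (h : i ≤ n) :
    st f (birth i) ∈ S Λ (n + 2) := st_mem hf _ (width_birth h)
theorem death_mem {Λ : Word → M} {n : ℕ} {f : Word → M} (hf : f ∈ S Λ (n + 2)) {i : ℕ}
    (h : i ≤ n) : st f (death i) ∈ S Λ n := st_mem hf _ (by simp [Piece.width, h])
theorem pos_mem {Λ : Word → M} {n : ℕ} {f : Word → M} (hf : f ∈ S Λ n) {i : ℕ} (h : i + 2 ≤ n) :
    st f (pos i) ∈ S Λ n := st_mem hf _ (width_pos h)
theorem neg_mem' {Λ : Word → M} {n : ℕ} {f : Word → M} (hf : f ∈ S Λ n) {i : ℕ} (h : i + 2 ≤ n) :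
    st f (neg i) ∈ S Λ n := st_mem hf _ (width_neg h)

variable {Λ : Word → M} (hΛ : KauffmanRules Λ)
include hΛ

theorem local_eq {n m : ℕ} {l r : Word} (hlr : LocalMove l r) (hl : width l n = some m)
    (hr : width r n = some m) {f : Word → M} (hf : f ∈ S Λ n) : ap f l = ap f r := by
  refine eqOn Λ n (apL l) (apL r) ?_ f hf
  intro u hu
  funext y
  show extd Λ (u ++ (l ++ y)) = extd Λ (u ++ (r ++ y))
  have h1 : width (u ++ (l ++ y)) 0 = width y m := by
    rw [width_append, hu]
    simp [width_append, hl]
  have h2 : width (u ++ (r ++ y)) 0 = width y m := by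
    rw [width_append, hu]
    simp [width_append, hr]
  by_cases hy : width y m = some 0
  · have c1 : Closed (u ++ (l ++ y)) := by rw [Closed, h1, hy]
    have c2 : Closed (u ++ (r ++ y)) := by rw [Closed, h2, hy]
    rw [extd, extd, if_pos c1, if_pos c2]
    refine hΛ.regular _ _ (Relation.EqvGen.rel _ _ ?_)
    rw [← List.append_assoc] at c1 c2 ⊢
    rw [← List.append_assoc]
    exact RegStep.mk u l r y hlr c1 c2
  · have c1 : ¬ Closed (u ++ (l ++ y)) := by rw [Closed, h1]; exact hy
    have c2 : ¬ Closed (u ++ (r ++ y)) := by rw [Closed, h2]; exact hy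
    rw [extd, extd, if_neg c1, if_neg c2]

/-- linear local relations -/
theorem lin_eq {n m : ℕ} {l r : Word} (c : Raz) (hl : width l n = some m)
    (hr : width r n = some m)
    (hlr : ∀ x y, Closed (x ++ r ++ y) → Closed (x ++ l ++ y) →
      Λ (x ++ l ++ y) = c • Λ (x ++ r ++ y))
    {f : Word → M} (hf : f ∈ S Λ n) : ap f l = c • ap f r := by
  refine eqOn Λ n (apL l) (c • apL r) ?_ f hf
  intro u hu
  funext y
  show extd Λ (u ++ (l ++ y)) = c • extd Λ (u ++ (r ++ y))
  have h1 : width (u ++ (l ++ y)) 0 = width y m := by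
    rw [width_append, hu]
    simp [width_append, hl]
  have h2 : width (u ++ (r ++ y)) 0 = width y m := by
    rw [width_append, hu]
    simp [width_append, hr]
  by_cases hy : width y m = some 0
  · have c1 : Closed (u ++ (l ++ y)) := by rw [Closed, h1, hy]
    have c2 : Closed (u ++ (r ++ y)) := by rw [Closed, h2, hy]
    rw [extd, extd, if_pos c1, if_pos c2]
    rw [← List.append_assoc] at c1 c2 ⊢
    rw [← List.append_assoc]
    exact hlr u y c2 c1
  · have c1 : ¬ Closed (u ++ (l ++ y)) := by rw [Closed, h1]; exact hy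
    have c2 : ¬ Closed (u ++ (r ++ y)) := by rw [Closed, h2]; exact hy
    rw [extd, extd, if_neg c1, if_neg c2, smul_zero]

/-! ### basic relations -/

variable {n : ℕ} {f : Word → M} (hf : f ∈ S Λ n)
include hf

theorem zig1 {i : ℕ} (h : i < n) : st (st f (birth i)) (death (i + 1)) = f := by
  refine local_eq hΛ (LocalMove.zigzag₁ i) (m := n) ?_ ?_ hf
  · have h1 : i ≤ n := h.le
    have h2 : i + 1 + 2 ≤ n + 2 := by omega
    simp [width, Piece.width, h1, h2]
  · simp [width]

theorem zig2 {i : ℕ} (h : i < n) : st (st f (birth (i + 1))) (death i) = f := by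
  refine local_eq hΛ (LocalMove.zigzag₂ i) (m := n) ?_ ?_ hf
  · have h1 : i + 1 ≤ n := h
    have h2 : i + 2 ≤ n + 2 := by omega
    simp [width, Piece.width, h1, h2]
  · simp [width]

theorem sb1 {i : ℕ} (h : i < n) :
    st (st f (birth i)) (pos (i + 1)) = st (st f (birth (i + 1))) (neg i) := by
  refine local_eq hΛ (LocalMove.slideBirth₁ i) (m := n + 2) ?_ ?_ hf
  · have h1 : i ≤ n := h.le
    have h2 : i + 1 + 2 ≤ n + 2 := by omega
    simp [width, Piece.width, h1, h2]
  · have h1 : i + 1 ≤ n := h
    have h2 : i + 2 ≤ n + 2 := by omega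
    simp [width, Piece.width, h1, h2]

theorem sb2 {i : ℕ} (h : i < n) :
    st (st f (birth i)) (neg (i + 1)) = st (st f (birth (i + 1))) (pos i) := by
  refine local_eq hΛ (LocalMove.slideBirth₂ i) (m := n + 2) ?_ ?_ hf
  · have h1 : i ≤ n := h.le
    have h2 : i + 1 + 2 ≤ n + 2 := by omega
    simp [width, Piece.width, h1, h2]
  · have h1 : i + 1 ≤ n := h
    have h2 : i + 2 ≤ n + 2 := by omega
    simp [width, Piece.width, h1, h2]

theorem sd1 {i : ℕ} (h : i + 3 ≤ n) :
    st (st f (pos (i + 1))) (death i) = st (st f (neg i)) (death (i + 1)) := by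
  have h1 : i + 1 + 2 ≤ n := by omega
  have h2 : i + 2 ≤ n := by omega
  refine local_eq hΛ (LocalMove.slideDeath₁ i) (m := n - 2) ?_ ?_ hf
  · simp [width, Piece.width, h1, h2]
  · simp [width, Piece.width, h1, h2]

theorem sd2 {i : ℕ} (h : i + 3 ≤ n) :
    st (st f (neg (i + 1))) (death i) = st (st f (pos i)) (death (i + 1)) := by
  have h1 : i + 1 + 2 ≤ n := by omega
  have h2 : i + 2 ≤ n := by omega
  refine local_eq hΛ (LocalMove.slideDeath₂ i) (m := n - 2) ?_ ?_ hf
  · simp [width, Piece.width, h1, h2]
  · simp [width, Piece.width, h1, h2]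

theorem pn {i : ℕ} (h : i + 2 ≤ n) : st (st f (pos i)) (neg i) = f := by
  refine local_eq hΛ (LocalMove.second₁ i) (m := n) ?_ ?_ hf
  · simp [width, Piece.width, h]
  · simp [width]

theorem np {i : ℕ} (h : i + 2 ≤ n) : st (st f (neg i)) (pos i) = f := by
  refine local_eq hΛ (LocalMove.second₂ i) (m := n) ?_ ?_ hf
  · simp [width, Piece.width, h]
  · simp [width]

theorem br {i : ℕ} (h : i + 3 ≤ n) :
    st (st (st f (pos i)) (pos (i + 1))) (pos i) =
      st (st (st f (pos (i + 1))) (pos i)) (pos (i + 1)) := by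
  have h1 : i + 1 + 2 ≤ n := by omega
  have h2 : i + 2 ≤ n := by omega
  refine local_eq hΛ (LocalMove.third i) (m := n) ?_ ?_ hf
  · simp [width, Piece.width, h1, h2]
  · simp [width, Piece.width, h1, h2]

theorem exch (p q : Piece) (h : p.index + p.ins ≤ q.index) {k k' m : ℕ}
    (w1 : p.width n = some k) (w2 : (q.moved (q.index + p.outs - p.ins)).width k = some m)
    (w3 : q.width n = some k') (w4 : p.width k' = some m) :
    st (st f p) (q.moved (q.index + p.outs - p.ins)) = st (st f q) p := by
  refine local_eq hΛ (LocalMove.exchange p q h) (m := m) ?_ ?_ hf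
  · simp [width, w1, w2]
  · simp [width, w3, w4]

theorem curlBP {i : ℕ} (h : i ≤ n) :
    st (st f (birth i)) (pos i) = aPow (-1) • st f (birth i) := by
  refine lin_eq hΛ (l := [birth i, pos i]) (r := [birth i]) (n := n) (m := n + 2) _ ?_ ?_ ?_ hf
  · simp [width, Piece.width, h]
  · simp [width, Piece.width, h]
  · intro x y h1 _
    exact hΛ.birthPos x i y h1

theorem curlBN {i : ℕ} (h : i ≤ n) :
    st (st f (birth i)) (neg i) = aPow 1 • st f (birth i) := by
  refine lin_eq hΛ (l := [birth i, neg i]) (r := [birth i]) (n := n) (m := n + 2) _ ?_ ?_ ?_ hf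
  · simp [width, Piece.width, h]
  · simp [width, Piece.width, h]
  · intro x y h1 _
    exact hΛ.birthNeg x i y h1

theorem curlDP {i : ℕ} (h : i + 2 ≤ n) :
    st (st f (pos i)) (death i) = aPow (-1) • st f (death i) := by
  refine lin_eq hΛ (l := [pos i, death i]) (r := [death i]) (n := n) (m := n - 2) _ ?_ ?_ ?_ hf
  · simp [width, Piece.width, h]
  · simp [width, Piece.width, h]
  · intro x y h1 _
    exact hΛ.deathPos x i y h1

theorem curlDN {i : ℕ} (h : i + 2 ≤ n) :
    st (st f (neg i)) (death i) = aPow 1 • st f (death i) := by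
  refine lin_eq hΛ (l := [neg i, death i]) (r := [death i]) (n := n) (m := n - 2) _ ?_ ?_ ?_ hf
  · simp [width, Piece.width, h]
  · simp [width, Piece.width, h]
  · intro x y h1 _
    exact hΛ.deathNeg x i y h1

theorem skein_st {i : ℕ} (h : i + 2 ≤ n) :
    st f (pos i) + st f (neg i) = zVar • (f + st (st f (death i)) (birth i)) := by
  have key := eqOn Λ n (stL (pos i) + stL (neg i))
    (zVar • (LinearMap.id + (stL (birth i)).comp (stL (death i)))) ?_ f hf
  · exact key
  intro u hu
  funext y
  show extd Λ (u ++ (pos i :: y)) + extd Λ (u ++ (neg i :: y)) =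
    zVar • (extd Λ (u ++ y) + extd Λ (u ++ (death i :: birth i :: y)))
  have h1 : width (u ++ (pos i :: y)) 0 = width y n := by
    rw [width_append, hu]; simp [width, Piece.width, h]
  have h2 : width (u ++ (neg i :: y)) 0 = width y n := by
    rw [width_append, hu]; simp [width, Piece.width, h]
  have h3 : width (u ++ y) 0 = width y n := by
    rw [width_append, hu]; simp
  have h4 : width (u ++ (death i :: birth i :: y)) 0 = width y n := by
    have e1 : i ≤ n - 2 := by omega
    have e2 : n - 2 + 2 = n := by omega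
    rw [width_append, hu]; simp [width, Piece.width, h, e1, e2]
  by_cases hy : width y n = some 0
  · have c1 : Closed (u ++ (pos i :: y)) := by rw [Closed, h1, hy]
    have c2 : Closed (u ++ (neg i :: y)) := by rw [Closed, h2, hy]
    have c3 : Closed (u ++ y) := by rw [Closed, h3, hy]
    have c4 : Closed (u ++ (death i :: birth i :: y)) := by rw [Closed, h4, hy]
    rw [extd, extd, extd, extd, if_pos c1, if_pos c2, if_pos c3, if_pos c4]
    have := hΛ.skein u i y (by simpa using c1)
    simpa using this
  · have c1 : ¬ Closed (u ++ (pos i :: y)) := by rw [Closed, h1]; exact hy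
    have c2 : ¬ Closed (u ++ (neg i :: y)) := by rw [Closed, h2]; exact hy
    have c3 : ¬ Closed (u ++ y) := by rw [Closed, h3]; exact hy
    have c4 : ¬ Closed (u ++ (death i :: birth i :: y)) := by rw [Closed, h4]; exact hy
    rw [extd, extd, extd, extd, if_neg c1, if_neg c2, if_neg c3, if_neg c4]
    simp

/-- a crossing of either kind -/
def cr (b : Bool) (i : ℕ) : Piece := if b then pos i else neg i

omit hΛ hf in
theorem cr_true (i : ℕ) : cr true i = pos i := rfl
omit hΛ hf in
theorem cr_false (i : ℕ) : cr false i = neg i := rfl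

omit hΛ in
theorem cr_mem (b : Bool) {i : ℕ} (h : i + 2 ≤ n) : st f (cr b i) ∈ S Λ n := by
  cases b
  · exact neg_mem' hf h
  · exact pos_mem hf h

/-- `e1`: far crossings commute -/
theorem xx (b c : Bool) {i j : ℕ} (h : i + 2 ≤ j) (hj : j + 2 ≤ n) :
    st (st f (cr b i)) (cr c j) = st (st f (cr c j)) (cr b i) := by
  have hi : i + 2 ≤ n := by omega
  cases b <;> cases c
  · exact exch hΛ hf (neg i) (neg j) h (width_neg hi) (width_neg hj) (width_neg hj) (width_neg hi)
  · exact exch hΛ hf (neg i) (pos j) h (width_neg hi) (width_pos hj) (width_pos hj) (width_neg hi)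
  · exact exch hΛ hf (pos i) (neg j) h (width_pos hi) (width_neg hj) (width_neg hj) (width_pos hi)
  · exact exch hΛ hf (pos i) (pos j) h (width_pos hi) (width_pos hj) (width_pos hj) (width_pos hi)

/-- `e2`: birth to the left of a crossing -/
theorem bx (c : Bool) {l k : ℕ} (h : l ≤ k) (hk : k + 2 ≤ n) :
    st (st f (birth l)) (cr c (k + 2)) = st (st f (cr c k)) (birth l) := by
  have hl : l ≤ n := by omega
  have hk' : k + 2 + 2 ≤ n + 2 := by omega
  cases c
  · exact exch hΛ hf (birth l) (neg k) h (width_birth hl) (width_neg hk') (width_neg hk)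
      (width_birth hl)
  · exact exch hΛ hf (birth l) (pos k) h (width_birth hl) (width_pos hk') (width_pos hk)
      (width_birth hl)

/-- `e3`: crossing to the left of a birth -/
theorem xb (c : Bool) {l k : ℕ} (h : k + 2 ≤ l) (hl : l ≤ n) :
    st (st f (cr c k)) (birth l) = st (st f (birth l)) (cr c k) := by
  have hk : k + 2 ≤ n := by omega
  have hk' : k + 2 ≤ n + 2 := by omega
  cases c
  · exact exch hΛ hf (neg k) (birth l) h (width_neg hk) (width_birth hl) (width_birth hl)
      (width_neg hk')
  · exact exch hΛ hf (pos k) (birth l) h (width_pos hk) (width_birth hl) (width_birth hl)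
      (width_pos hk')

/-- `e4`: two births -/
theorem bb {i j : ℕ} (h : i ≤ j) (hj : j ≤ n) :
    st (st f (birth i)) (birth (j + 2)) = st (st f (birth j)) (birth i) := by
  have hi : i ≤ n := by omega
  have hj' : j + 2 ≤ n + 2 := by omega
  have hi' : i ≤ n + 2 := by omega
  exact exch hΛ hf (birth i) (birth j) h (width_birth hi) (width_birth hj') (width_birth hj)
    (width_birth hi')

/-- `e5`: crossing to the left of a death -/
theorem xd (c : Bool) {k j : ℕ} (h : k + 2 ≤ j) (hj : j + 2 ≤ n) :
    st (st f (cr c k)) (death j) = st (st f (death j)) (cr c k) := by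
  have hk : k + 2 ≤ n := by omega
  have hk' : k + 2 ≤ n - 2 := by omega
  cases c
  · exact exch hΛ hf (neg k) (death j) h (width_neg hk) (width_death hj) (width_death hj)
      (width_neg hk')
  · exact exch hΛ hf (pos k) (death j) h (width_pos hk) (width_death hj) (width_death hj)
      (width_pos hk')

/-- `e6`: death to the left of a crossing -/
theorem dx (c : Bool) {k j : ℕ} (h : j ≤ k) (hk : k + 4 ≤ n) :
    st (st f (death j)) (cr c k) = st (st f (cr c (k + 2))) (death j) := by
  have hj : j + 2 ≤ n := by omega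
  have hk1 : k + 2 ≤ n - 2 := by omega
  have hk2 : k + 2 + 2 ≤ n := by omega
  have hh : j + 2 ≤ k + 2 := by omega
  cases c
  · exact exch hΛ hf (death j) (neg (k + 2)) hh (width_death hj) (width_neg hk1) (width_neg hk2)
      (width_death hj)
  · exact exch hΛ hf (death j) (pos (k + 2)) hh (width_death hj) (width_pos hk1) (width_pos hk2)
      (width_death hj)

/-- `e7`: birth to the left of a death -/
theorem bd {l j : ℕ} (h : l ≤ j) (hj : j + 2 ≤ n) :
    st (st f (birth l)) (death (j + 2)) = st (st f (death j)) (birth l) := by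
  have hl : l ≤ n := by omega
  have hj' : j + 2 + 2 ≤ n + 2 := by omega
  have hl' : l ≤ n - 2 := by omega
  refine exch hΛ hf (birth l) (death j) h (k := n + 2) (k' := n - 2) (m := n) (width_birth hl) ?_
    (width_death hj) ?_
  · simp [Piece.width, Piece.moved, Piece.index, Piece.outs, Piece.ins]; omega
  · simp [Piece.width]; omega

/-- `e8`: death to the left of a birth -/
theorem db {l j : ℕ} (h : j ≤ l) (hl : l + 2 ≤ n) :
    st (st f (death j)) (birth l) = st (st f (birth (l + 2))) (death j) := by
  have hj : j + 2 ≤ n := by omega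
  refine exch hΛ hf (death j) (birth (l + 2)) ?_ (k := n - 2) (k' := n + 2) (m := n)
    (width_death hj) ?_ (width_birth hl) ?_
  · simp [Piece.index, Piece.ins]; omega
  · simp [Piece.width, Piece.moved, Piece.index, Piece.outs, Piece.ins]; omega
  · simp [Piece.width]; omega

/-- the strand running over slides across a crossing -/
theorem slideX (c : Bool) {j : ℕ} (h : j + 3 ≤ n) :
    st (st (st f (neg j)) (neg (j + 1))) (cr c j) =
      st (st (st f (cr c (j + 1))) (neg j)) (neg (j + 1)) := by
  have h1 : j + 2 ≤ n := by omega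
  have h2 : j + 1 + 2 ≤ n := by omega
  have m1 := neg_mem' hf h1
  have m2 := neg_mem' m1 h2
  cases c
  · -- all negative
    have m3 := neg_mem' m2 h1
    have e := br hΛ m3 h
    rw [np hΛ m2 h1, np hΛ m1 h2, np hΛ hf h1] at e
    rw [cr_false, cr_false]
    have e2 : st (st (st f (neg (j + 1))) (neg j)) (neg (j + 1)) =
        st (st (st (st (st (st (st (st (st f (neg j)) (neg (j + 1))) (neg j)) (pos (j + 1)))
          (pos j)) (pos (j + 1))) (neg (j + 1))) (neg j)) (neg (j + 1)) := by
      rw [← e]
    rw [e2]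
    have q1 := pos_mem m3 h2
    have q2 := pos_mem q1 h1
    rw [pn hΛ q2 h2, pn hΛ q1 h1, pn hΛ m3 h2]
  · have e := br hΛ m2 h
    rw [np hΛ m1 h2, np hΛ hf h1] at e
    rw [cr_true, cr_true, ← e]
    have q1 := pos_mem m2 h1
    have q2 := pos_mem q1 h2
    rw [pn hΛ q2 h1, pn hΛ q1 h2]

end

end

end Pool.Agent.Helper454.Kauf
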