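import Pool.Agent.Helper454.Kauf.Example

set_option autoImplicit false

namespace Pool.Agent.Helper454.Kauf

/-- the value of the diagram, computed by the kernel -/
theorem final_eq : finalL = expected := by decide +kernel

end Pool.Agent.Helper454.Kauf
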