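import Mathlib

/-!
# Sliced link diagrams, regular isotopy, unknotting number and the Kauffman polynomial

A link diagram in the plane is cut by horizontal lines into elementary pieces, read from top to
bottom.  Between two pieces there are finitely many vertical strands, numbered `0, 1, 2, ...` from
left to right.
-/

set_option autoImplicit false

namespace Pool.Agent.Helper454.Kauf

open LaurentPolynomial

/-- The elementary pieces of a sliced link diagram:
* `birth i`: a local maximum, creating two new adjacent strands at the positions `i` and `i+1`;
* `death i`: a local minimum, joining the adjacent strands at the positions `i` and `i+1`;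
* `pos i`: a crossing of the strands `i` and `i+1` in which the strand running from top right to
  bottom left passes over the other one (it is a positive crossing if both strands are oriented
  downwards);
* `neg i`: the opposite crossing, where the strand running from top left to bottom right passes
  over. -/
inductive Piece : Type
  | birth (i : ℕ) : Piece
  | death (i : ℕ) : Piece
  | pos (i : ℕ) : Piece
  | neg (i : ℕ) : Piece
  deriving DecidableEq

/-- Diagrams (possibly with endpoints at the top and at the bottom): lists of pieces, read from top
to bottom. -/
abbrev Word : Type := List Piece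

namespace Piece

/-- The number of strands a piece uses at its top. -/
def ins : Piece → ℕ
  | birth _ => 0
  | _ => 2

/-- The number of strands a piece has at its bottom. -/
def outs : Piece → ℕ
  | death _ => 0
  | _ => 2

/-- The position of a piece. -/
def index : Piece → ℕ
  | birth i => i
  | death i => i
  | pos i => i
  | neg i => i

/-- The same kind of piece, at position `j`. -/
def moved (j : ℕ) : Piece → Piece
  | birth _ => birth j
  | death _ => death j
  | pos _ => pos j
  | neg _ => neg j

/-- The number of strands below the piece if there are `n` strands above it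
(`none` if the piece does not fit). -/
def width : Piece → ℕ → Option ℕ
  | birth i, n => if i ≤ n then some (n + 2) else none
  | death i, n => if i + 2 ≤ n then some (n - 2) else none
  | pos i, n => if i + 2 ≤ n then some n else none
  | neg i, n => if i + 2 ≤ n then some n else none

end Piece

open Piece

/-- The number of strands below a diagram if there are `n` strands above it. -/
def width : Word → ℕ → Option ℕ
  | [], n => some n
  | p :: w, n => (p.width n).bind (width w)

/-- Link diagrams: no endpoints. -/
def Closed (w : Word) : Prop := width w 0 = some 0

/-- The local moves which generate regular isotopy of sliced diagrams: planar isotopy (exchange of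
the heights of two pieces which are next to each other, straightening of a zigzag, sliding a
crossing through a maximum or a minimum) and the Reidemeister moves II and III. -/
inductive LocalMove : Word → Word → Prop
  | exchange (p q : Piece) (h : p.index + p.ins ≤ q.index) :
      LocalMove [p, q.moved (q.index + p.outs - p.ins)] [q, p]
  | zigzag₁ (i : ℕ) : LocalMove [birth i, death (i + 1)] []
  | zigzag₂ (i : ℕ) : LocalMove [birth (i + 1), death i] []
  | slideBirth₁ (i : ℕ) : LocalMove [birth i, pos (i + 1)] [birth (i + 1), neg i]
  | slideBirth₂ (i : ℕ) : LocalMove [birth i, neg (i + 1)] [birth (i + 1), pos i]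
  | slideDeath₁ (i : ℕ) : LocalMove [pos (i + 1), death i] [neg i, death (i + 1)]
  | slideDeath₂ (i : ℕ) : LocalMove [neg (i + 1), death i] [pos i, death (i + 1)]
  | second₁ (i : ℕ) : LocalMove [pos i, neg i] []
  | second₂ (i : ℕ) : LocalMove [neg i, pos i] []
  | third (i : ℕ) : LocalMove [pos i, pos (i + 1), pos i] [pos (i + 1), pos i, pos (i + 1)]

/-- The first Reidemeister move (removal of a curl). -/
inductive FirstMove : Word → Word → Prop
  | birthPos (i : ℕ) : FirstMove [birth i, pos i] [birth i]
  | birthNeg (i : ℕ) : FirstMove [birth i, neg i] [birth i]
  | deathPos (i : ℕ) : FirstMove [pos i, death i] [death i]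
  | deathNeg (i : ℕ) : FirstMove [neg i, death i] [death i]

/-- Two link diagrams differ by one regular move. -/
inductive RegStep : Word → Word → Prop
  | mk (x l r y : Word) : LocalMove l r → Closed (x ++ l ++ y) → Closed (x ++ r ++ y) →
      RegStep (x ++ l ++ y) (x ++ r ++ y)

/-- Two link diagrams differ by one regular move or one first Reidemeister move. -/
inductive IsoStep : Word → Word → Prop
  | mk (x l r y : Word) : LocalMove l r ∨ FirstMove l r → Closed (x ++ l ++ y) →
      Closed (x ++ r ++ y) → IsoStep (x ++ l ++ y) (x ++ r ++ y)

/-- Regular isotopy of link diagrams. -/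
def RegIsotopic : Word → Word → Prop := Relation.EqvGen RegStep

/-- Diagrams of the same (isotopic) unoriented link. -/
def Isotopic : Word → Word → Prop := Relation.EqvGen IsoStep

/-- The crossingless circle. -/
def circle : Word := [birth 0, death 0]

/-- Auxiliary function for `components`: `L` lists, for each current strand, the name of the arc it
belongs to; `k` is a fresh name. Returns the number of closed curves completed. -/
def componentsAux : Word → List ℕ → ℕ → ℕ
  | [], _, _ => 0
  | birth i :: w, L, k => componentsAux w (L.take i ++ [k, k] ++ L.drop i) (k + 1)
  | death i :: w, L, k =>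
      (if L.getD i 0 = L.getD (i + 1) 0 then 1 else 0) +
        componentsAux w ((L.take i ++ L.drop (i + 2)).map
          (fun c => if c = L.getD (i + 1) 0 then L.getD i 0 else c)) k
  | pos i :: w, L, k =>
      componentsAux w (L.take i ++ [L.getD (i + 1) 0, L.getD i 0] ++ L.drop (i + 2)) k
  | neg i :: w, L, k =>
      componentsAux w (L.take i ++ [L.getD (i + 1) 0, L.getD i 0] ++ L.drop (i + 2)) k

/-- The number of components of a link diagram. -/
def components (w : Word) : ℕ := componentsAux w [] 0

/-- Knot diagrams: link diagrams with exactly one component. -/
def IsKnot (w : Word) : Prop := Closed w ∧ components w = 1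

/-- `Oriented d w t`: the strands at the top of `w` have the directions `d` (`true` = downwards),
these directions extend to an orientation of the whole diagram `w` (which ends without strands),
and the sum of the signs of the crossings of `w` is `t`. -/
inductive Oriented : List Bool → Word → ℤ → Prop
  | nil : Oriented [] [] 0
  | birth (l r : List Bool) (b : Bool) (w : Word) (t : ℤ) :
      Oriented (l ++ [b, !b] ++ r) w t → Oriented (l ++ r) (Piece.birth l.length :: w) t
  | death (l r : List Bool) (b : Bool) (w : Word) (t : ℤ) :
      Oriented (l ++ r) w t → Oriented (l ++ [b, !b] ++ r) (Piece.death l.length :: w) t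
  | pos (l r : List Bool) (b c : Bool) (w : Word) (t : ℤ) :
      Oriented (l ++ [c, b] ++ r) w t →
      Oriented (l ++ [b, c] ++ r) (Piece.pos l.length :: w) (t + if b = c then 1 else -1)
  | neg (l r : List Bool) (b c : Bool) (w : Word) (t : ℤ) :
      Oriented (l ++ [c, b] ++ r) w t →
      Oriented (l ++ [b, c] ++ r) (Piece.neg l.length :: w) (t + if b = c then -1 else 1)

/-- `w` has an orientation for which the writhe is `t`. (For a knot diagram the writhe does not
depend on the orientation.) -/
def HasWrithe (w : Word) (t : ℤ) : Prop := Oriented [] w t

/-- Two link diagrams differ by one crossing change. -/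
inductive CrossingChange : Word → Word → Prop
  | posToNeg (x y : Word) (i : ℕ) (h : Closed (x ++ [pos i] ++ y)) :
      CrossingChange (x ++ [pos i] ++ y) (x ++ [neg i] ++ y)
  | negToPos (x y : Word) (i : ℕ) (h : Closed (x ++ [neg i] ++ y)) :
      CrossingChange (x ++ [neg i] ++ y) (x ++ [pos i] ++ y)

/-- `UnknottedBy n D`: the knot with diagram `D` becomes the unknot after `n` crossing changes,
with isotopies allowed before, between and after the crossing changes. -/
inductive UnknottedBy : ℕ → Word → Prop
  | zero (D : Word) : Isotopic D circle → UnknottedBy 0 D
  | succ (n : ℕ) (D E E' : Word) : Isotopic D E → CrossingChange E E' → UnknottedBy n E' →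
      UnknottedBy (n + 1) D

/-- The unknotting number. -/
noncomputable def unknottingNumber (D : Word) : ℕ := sInf {n | UnknottedBy n D}

/-- The ring `ℤ[a^{±1}, z^{±1}]`, as Laurent polynomials in `a` over Laurent polynomials in `z`. -/
abbrev Raz : Type := LaurentPolynomial (LaurentPolynomial ℤ)

/-- The power `a^n`. -/
noncomputable def aPow (n : ℤ) : Raz := T n

/-- The variable `z`. -/
noncomputable def zVar : Raz := C (T 1)

/-- Kauffman's rules for a function `Λ` on link diagrams with values in a `ℤ[a^{±1}, z^{±1}]`-module:
it is invariant under regular isotopy, a positive curl multiplies it by `a`, a negative curl by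
`a⁻¹`, and `Λ(D₊) + Λ(D₋) = z (Λ(D₀) + Λ(D_∞))`. -/
structure KauffmanRules {M : Type} [AddCommGroup M] [Module Raz M] (Λ : Word → M) : Prop where
  regular : ∀ D E, RegIsotopic D E → Λ D = Λ E
  birthPos : ∀ x i y, Closed (x ++ [birth i] ++ y) →
    Λ (x ++ [birth i, pos i] ++ y) = aPow (-1) • Λ (x ++ [birth i] ++ y)
  birthNeg : ∀ x i y, Closed (x ++ [birth i] ++ y) →
    Λ (x ++ [birth i, neg i] ++ y) = aPow 1 • Λ (x ++ [birth i] ++ y)
  deathPos : ∀ x i y, Closed (x ++ [death i] ++ y) →
    Λ (x ++ [pos i, death i] ++ y) = aPow (-1) • Λ (x ++ [death i] ++ y)
  deathNeg : ∀ x i y, Closed (x ++ [death i] ++ y) →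
    Λ (x ++ [neg i, death i] ++ y) = aPow 1 • Λ (x ++ [death i] ++ y)
  skein : ∀ x i y, Closed (x ++ [pos i] ++ y) →
    Λ (x ++ [pos i] ++ y) + Λ (x ++ [neg i] ++ y) =
      zVar • (Λ (x ++ y) + Λ (x ++ [death i, birth i] ++ y))

/-- The normalised Kauffman polynomial `a^{-w(D)} Λ_D(a,z)`, for a diagram with writhe `t` whose
value `Λ_D` is `p`. -/
noncomputable def normalised (t : ℤ) (p : Raz) : Raz := aPow (-t) * p

/-- The set of the exponents of `a` which occur in `p(a⁻¹, z)`. -/
noncomputable def exponentsInv (p : Raz) : Set ℤ := {n | (invert p).coeff n ≠ 0}

end Pool.Agent.Helper454.Kauf
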