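import Pool.Agent.Helper454.Kauf.Engine
import Pool.Agent.Helper454.Kauf.Calc

set_option autoImplicit false

namespace Pool.Agent.Helper454.Kauf

open Piece

/-- the conjugating braid -/
def wL : List ℤ := [-2, 3, 3, 4, -3, -5, -5, -6, 5, -4, -5, -2, 4, -5]

/-- the crossings of the example (generator `i` is the crossing of the strands `i-1`, `i`) -/
def KL : List ℤ := (wL.reverse.map (fun x => -x)) ++ [1, 1] ++ wL ++ [2, 4, 6]

def crZ (t : Bool × ℕ) : Piece := if t.1 then pos t.2 else neg t.2

/-- The knot diagram: the plat closure of the braid word `KL` on eight strands. -/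
def knotK : Word :=
  [birth 0, birth 2, birth 4, birth 6] ++ (KL.map toZ).map crZ ++ [death 6, death 4, death 2, death 0]

def expected : List (List (ℤ × List ℤ)) :=
[[(-10, [0, 0, 0, 0, 0, 0, 1, 0, -5, 0, 8, 0, -5, 0, 1]), (-9, [0, 0, 0, 0, 0, 0, 0, 7, 0, -37, 0, 58, 0, -33, 0, 6]),
    (-8, [0, 0, 0, 0, 0, 0, 2, 0, 17, 0, -102, 0, 157, 0, -86, 0, 15]),
    (-7, [0, 0, 0, 0, 0, -1, 0, 2, 0, 31, 0, -145, 0, 220, 0, -121, 0, 21]),
    (-6, [0, 0, 0, 0, -1, 0, 10, 0, -37, 0, 63, 0, -111, 0, 166, 0, -99, 0, 18]),
    (-5, [0, 0, 0, 1, 0, -12, 0, 45, 0, -56, 0, -12, 0, 56, 0, 13, 0, -37, 0, 9]),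
    (-4, [0, 0, 0, 0, 1, 0, 0, 0, -29, 0, 135, 0, -256, 0, 241, 0, -100, 0, 8, 0, 2]),
    (-3, [0, 0, 0, 3, 0, -30, 0, 119, 0, -234, 0, 293, 0, -275, 0, 180, 0, -72, 0, 11]),
    (-2, [0, 0, 0, 0, 3, 0, -34, 0, 112, 0, -149, 0, 87, 0, -37, 0, 17, 0, -10, 0, 2]),
    (-1, [0, 0, 0, 5, 0, -34, 0, 94, 0, -128, 0, 107, 0, -80, 0, 40, 0, -14, 0, 2]),
    (0, [0, 0, 0, 0, 2, 0, -29, 0, 88, 0, -114, 0, 70, 0, -25, 0, 3]),
    (1, [0, 0, 0, 4, 0, -15, 0, 25, 0, -18, 0, 5, 0, -2]), (2, [0, 0, 0, 0, 1, 0, -4, 0, 6, 0, -3])]]

def start : Vec 4 := opG 3 6 0 (opG 2 4 0 (opG 1 2 0 (opG 0 0 0 ([(0, [1])] : Poly))))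

def final : Vec 1 := opD 1 2 (opD 2 4 (opD 3 6 (runZ 4 (KL.map toZ) start)))

def finalL : List (List (ℤ × List ℤ)) := final

/-! ### checking isotopies -/

inductive Tag
  | pn (i : ℕ)
  | np (i : ℕ)
  | exchRev (p q : Piece)
  | sb1rev (i : ℕ)
  | r1dn (i : ℕ)
  | zig1 (i : ℕ)

def Tag.lhs : Tag → Word
  | pn i => [pos i, neg i]
  | np i => [neg i, pos i]
  | exchRev p q => [q, p]
  | sb1rev i => [birth (i + 1), pos i]
  | r1dn i => [neg i, death i]
  | zig1 i => [birth i, death (i + 1)]

def Tag.rhs : Tag → Word
  | pn _ => []
  | np _ => []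
  | exchRev p q => [p, q.moved (q.index + p.outs - p.ins)]
  | sb1rev i => [birth i, neg (i + 1)]
  | r1dn i => [death i]
  | zig1 _ => []

def Tag.ok : Tag → Bool
  | exchRev p q => decide (p.index + p.ins ≤ q.index)
  | _ => true

theorem Tag.sound (t : Tag) (h : t.ok = true) (x y : Word) (h1 : Closed (x ++ t.lhs ++ y))
    (h2 : Closed (x ++ t.rhs ++ y)) : Isotopic (x ++ t.lhs ++ y) (x ++ t.rhs ++ y) := by
  cases t with
  | pn i => exact Relation.EqvGen.rel _ _ (IsoStep.mk x _ _ y (Or.inl (LocalMove.second₁ i)) h1 h2)
  | np i => exact Relation.EqvGen.rel _ _ (IsoStep.mk x _ _ y (Or.inl (LocalMove.second₂ i)) h1 h2)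
  | exchRev p q =>
    exact Relation.EqvGen.symm _ _ (Relation.EqvGen.rel _ _ (IsoStep.mk x _ _ y
      (Or.inl (LocalMove.exchange p q (of_decide_eq_true h))) h2 h1))
  | sb1rev i =>
    exact Relation.EqvGen.symm _ _ (Relation.EqvGen.rel _ _ (IsoStep.mk x _ _ y
      (Or.inl (LocalMove.slideBirth₂ i)) h2 h1))
  | r1dn i =>
    exact Relation.EqvGen.rel _ _ (IsoStep.mk x _ _ y (Or.inr (FirstMove.deathNeg i)) h1 h2)
  | zig1 i =>
    exact Relation.EqvGen.rel _ _ (IsoStep.mk x _ _ y (Or.inl (LocalMove.zigzag₁ i)) h1 h2)

/-- apply a list of moves -/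
def runMoves : Word → List (ℕ × Tag) → Option Word
  | w, [] => some w
  | w, (k, t) :: l =>
    if t.ok ∧ w = w.take k ++ t.lhs ++ w.drop (k + t.lhs.length) ∧ Closed w ∧
        Closed (w.take k ++ t.rhs ++ w.drop (k + t.lhs.length)) then
      runMoves (w.take k ++ t.rhs ++ w.drop (k + t.lhs.length)) l
    else none

theorem runMoves_sound (w w' : Word) (l : List (ℕ × Tag)) (h : runMoves w l = some w') :
    Isotopic w w' := by
  induction l generalizing w with
  | nil =>
    simp only [runMoves, Option.some.injEq] at h
    subst h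
    exact Relation.EqvGen.refl _
  | cons a l ih =>
    obtain ⟨k, t⟩ := a
    rw [runMoves] at h
    split at h
    · rename_i hc
      obtain ⟨h1, h2, h3, h4⟩ := hc
      refine Relation.EqvGen.trans _ _ _ ?_ (ih _ h)
      have := Tag.sound t h1 (w.take k) (w.drop (k + t.lhs.length)) (by rwa [← h2]) h4
      rwa [← h2] at this
    · exact absurd h (by simp)

/-- the part of the diagram above the changed crossing -/
def partX : Word :=
  [birth 0, birth 2, birth 4, birth 6] ++ ((wL.reverse.map (fun x => -x)).map toZ).map crZ ++ [pos 0]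

/-- the part of the diagram below the changed crossing -/
def partY : Word :=
  ((wL ++ [2, 4, 6]).map toZ).map crZ ++ [death 6, death 4, death 2, death 0]

theorem knotK_eq : knotK = partX ++ [pos 0] ++ partY := by decide +kernel

def cancelList : ℕ → List ℤ → List (ℕ × Tag)
  | _, [] => []
  | k, x :: l => (k, if 0 < x then Tag.np (x.natAbs - 1) else Tag.pn (x.natAbs - 1)) ::
      cancelList (k - 1) l

def moves : List (ℕ × Tag) :=
  (18, Tag.pn 0) :: cancelList 17 wL ++
  [(3, Tag.exchRev (pos 1) (birth 6)), (4, Tag.exchRev (pos 3) (birth 6)), (5, Tag.sb1rev 5),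
   (6, Tag.r1dn 6), (5, Tag.zig1 5),
   (2, Tag.exchRev (pos 1) (birth 4)), (3, Tag.sb1rev 3), (4, Tag.r1dn 4), (3, Tag.zig1 3),
   (1, Tag.sb1rev 1), (2, Tag.r1dn 2), (1, Tag.zig1 1)]

theorem runMoves_K : runMoves (partX ++ [neg 0] ++ partY) moves = some circle := by
  decide +kernel

theorem closed_K : Closed knotK := by decide +kernel

theorem components_K : components knotK = 1 := by decide +kernel

theorem unknottedBy_K : UnknottedBy 1 knotK := by
  refine UnknottedBy.succ 0 knotK knotK (partX ++ [neg 0] ++ partY) (Relation.EqvGen.refl _) ?_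
    (UnknottedBy.zero _ (runMoves_sound _ _ _ runMoves_K))
  rw [knotK_eq]
  exact CrossingChange.posToNeg partX partY 0 (by rw [← knotK_eq]; exact closed_K)

theorem unknottingNumber_K : unknottingNumber knotK ≤ 1 := Nat.sInf_le unknottedBy_K

/-- computing the writhe; the last argument lists the directions of the left strands of the
births -/
def wr : List Bool → Word → List Bool → Option ℤ
  | [], [], _ => some 0
  | _ :: _, [], _ => none
  | _, birth _ :: _, [] => none
  | d, birth i :: w, b :: bs =>
    if i ≤ d.length then wr (d.take i ++ [b, !b] ++ d.drop i) w bs else none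
  | d, death i :: w, bs =>
    if i ≤ d.length then
      match d.drop i with
      | x :: y :: r => if y = !x then wr (d.take i ++ r) w bs else none
      | _ => none
    else none
  | d, pos i :: w, bs =>
    if i ≤ d.length then
      match d.drop i with
      | x :: y :: r => (wr (d.take i ++ [y, x] ++ r) w bs).map (· + if x = y then 1 else -1)
      | _ => none
    else none
  | d, neg i :: w, bs =>
    if i ≤ d.length then
      match d.drop i with
      | x :: y :: r => (wr (d.take i ++ [y, x] ++ r) w bs).map (· + if x = y then -1 else 1)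
      | _ => none
    else none

theorem wr_sound (w : Word) : ∀ (d bs : List Bool) (t : ℤ), wr d w bs = some t → Oriented d w t := by
  induction w with
  | nil =>
    intro d bs t h
    cases d with
    | nil => simp only [wr, Option.some.injEq] at h; subst h; exact Oriented.nil
    | cons a d => simp [wr] at h
  | cons p w ih =>
    intro d bs t h
    cases p with
    | birth i =>
      cases bs with
      | nil => simp [wr] at h
      | cons b bs =>
        simp only [wr] at h
        split at h
        · rename_i hi
          have := Oriented.birth (d.take i) (d.drop i) b w t (ih _ _ _ h)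
          rwa [List.take_append_drop, List.length_take, Nat.min_eq_left hi] at this
        · simp at h
    | death i =>
      simp only [wr] at h
      split at h
      · rename_i hi
        split at h
        · rename_i x y r hr
          split at h
          · rename_i hy
            subst hy
            have := Oriented.death (d.take i) r x w t (ih _ _ _ h)
            rw [List.length_take, Nat.min_eq_left hi] at this
            have e : d.take i ++ [x, !x] ++ r = d := by
              rw [List.append_assoc, List.cons_append, List.cons_append, List.nil_append, ← hr,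
                List.take_append_drop]
            rwa [e] at this
          · simp at h
        · simp at h
      · simp at h
    | pos i =>
      simp only [wr] at h
      split at h
      · rename_i hi
        split at h
        · rename_i x y r hr
          rw [Option.map_eq_some_iff] at h
          obtain ⟨t', h1, rfl⟩ := h
          have := Oriented.pos (d.take i) r x y w t' (ih _ _ _ h1)
          rw [List.length_take, Nat.min_eq_left hi] at this
          have e : d.take i ++ [x, y] ++ r = d := by
            rw [List.append_assoc, List.cons_append, List.cons_append, List.nil_append, ← hr,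
              List.take_append_drop]
          rwa [e] at this
        · simp at h
      · simp at h
    | neg i =>
      simp only [wr] at h
      split at h
      · rename_i hi
        split at h
        · rename_i x y r hr
          rw [Option.map_eq_some_iff] at h
          obtain ⟨t', h1, rfl⟩ := h
          have := Oriented.neg (d.take i) r x y w t' (ih _ _ _ h1)
          rw [List.length_take, Nat.min_eq_left hi] at this
          have e : d.take i ++ [x, y] ++ r = d := by
            rw [List.append_assoc, List.cons_append, List.cons_append, List.nil_append, ← hr,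
              List.take_append_drop]
          rwa [e] at this
        · simp at h
      · simp at h

end Pool.Agent.Helper454.Kauf
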