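import Pool.Agent.Helper454.Kauf.Exist9

set_option autoImplicit false

namespace Pool.Agent.Helper454.Kauf.Ex

open Par Piece LaurentPolynomial

noncomputable section

set_option linter.unusedSectionVars false

section
variable {R : Type} [CommRing R] [Par R] {m : ℕ}

/-- the empty state -/
def v0 (R : Type) [CommRing R] : V R := Finsupp.single [] 1

theorem v0_mem : v0 R ∈ Val (R := R) 0 := Submodule.subset_span rfl

/-- the value of a diagram (normalised to be `1` for the empty diagram) -/
def ev (R : Type) [CommRing R] [Par R] (w : Word) : R := opW R 0 w (v0 R) []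

/-- the Kauffman polynomial of a diagram (normalised to be `1` for the circle) -/
def Lam (R : Type) [CommRing R] [Par R] (w : Word) : R := opW R 0 w.dropLast (v0 R) [0]

theorem Val_one (x : V R) (hx : x ∈ Val (R := R) 1) : D 0 0 x [] = (dl : R) * x [0] := by
  have h : Val (R := R) 1 ≤ LinearMap.eqLocus ((Finsupp.lapply []).comp (D 0 0))
      ((dl : R) • (Finsupp.lapply [0] : V R →ₗ[R] R)) := by
    refine iSup_le fun e => ?_
    rintro _ ⟨v, hv, rfl⟩
    obtain ⟨e, he⟩ := e
    have he' : e < 1 := he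
    obtain rfl : e = 0 := by omega
    show D 0 0 (P 0 v) [] = (dl : R) * P 0 v [0]
    rw [D0_zero, P_apply]
    rfl
  exact h hx

theorem last_death {w : Word} {p : Piece} (h : Closed (w ++ [p])) :
    p = death 0 ∧ width w 0 = some 2 := by
  obtain ⟨n', h1, h2⟩ := wd_append h
  obtain ⟨n'', h3, h4⟩ := wd_cons h2
  obtain rfl := wd_nil h4
  cases p with
  | birth i => have := (wd_birth h3).2; omega
  | death i =>
    obtain ⟨h5, h6⟩ := wd_death h3
    obtain rfl : i = 0 := by omega
    obtain rfl : n' = 2 := by omega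
    exact ⟨rfl, h1⟩
  | pos i => obtain ⟨h5, h6⟩ := wd_pos h3; omega
  | neg i => obtain ⟨h5, h6⟩ := wd_neg h3; omega

theorem ev_Lam {w : Word} (h : Closed w) (hw : w ≠ []) : ev R w = (dl : R) * Lam R w := by
  obtain ⟨w', p, rfl⟩ : ∃ w' p, w = w' ++ [p] :=
    ⟨w.dropLast, w.getLast hw, (List.dropLast_append_getLast hw).symm⟩
  obtain ⟨rfl, h1⟩ := last_death h
  have h2 : lv 0 w' = 1 := by
    have := lv_width (m := 0) h1
    omega
  have h3 := opW_mem (R := R) (m := 0) h1 v0_mem
  rw [h2] at h3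
  rw [ev, Lam, List.dropLast_concat, opW_append, h2, ← Val_one _ h3]
  rfl

/-! ### comparing diagrams -/

/-- the state after `x` -/
theorem split3 {x l y : Word} (h : Closed (x ++ l ++ y)) :
    ∃ k k', width x 0 = some k ∧ width l k = some k' ∧ width y k' = some 0 := by
  obtain ⟨k', h1, h2⟩ := wd_append h
  obtain ⟨k, h3, h4⟩ := wd_append h1
  exact ⟨k, k', h3, h4, h2⟩

theorem ev_split (x l y : Word) : ev R (x ++ l ++ y) =
    opW R (lv (lv 0 x) l) y (opW R (lv 0 x) l (opW R 0 x (v0 R))) [] := by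
  rw [ev, List.append_assoc, opW_append, opW_append]

theorem width_app_of {u w : Word} {n k k' : ℕ} (h1 : width u n = some k)
    (h2 : width w k = some k') : width (u ++ w) n = some k' := by
  induction u generalizing n with
  | nil => obtain rfl := wd_nil h1; exact h2
  | cons p u ih =>
    obtain ⟨n1, h3, h4⟩ := wd_cons h1
    rw [List.cons_append]
    simp only [width]
    rw [h3]
    exact ih h4

theorem closed_of {x l y : Word} {k k' : ℕ} (h1 : width x 0 = some k) (h2 : width l k = some k')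
    (h3 : width y k' = some 0) : Closed (x ++ l ++ y) :=
  width_app_of (width_app_of h1 h2) h3

end

/-! ### the ring `ℤ[a^{±1}, z^{±1}]` -/

theorem raz_aa : aPow 1 * aPow (-1) = 1 := by
  rw [aPow, aPow, ← T_add]
  simp

theorem raz_zz : zVar * C (T (-1)) = (1 : Raz) := by
  rw [zVar, ← map_mul, ← T_add]
  simp

instance : Par Raz where
  a := aPow 1
  ai := aPow (-1)
  z := zVar
  zi := C (T (-1))
  dl := C (T (-1)) * (aPow 1 + aPow (-1)) - 1
  h1 := raz_aa
  h2 := by
    rw [mul_sub, ← mul_assoc, raz_zz, one_mul, mul_one]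
  h3 := raz_zz

theorem dl_ne : (dl : Raz) ≠ 0 := by
  intro h
  have e : (aPow 1 + aPow (-1) - zVar : Raz) = 0 := by
    have := h2 (R := Raz)
    rw [h, mul_zero] at this
    exact this.symm
  have e2 := congrArg (fun f : Raz => f.coeff 1) e
  simp [aPow, zVar, AddMonoidAlgebra.coeff_add, AddMonoidAlgebra.coeff_sub] at e2

theorem dl_cancel {u v : Raz} (h : (dl : Raz) * u = dl * v) : u = v :=
  mul_left_cancel₀ dl_ne h

/-! ### Kauffman's rules -/

theorem ne_nil_of {x y r : Word} {k : ℕ} (h : width x 0 = some k) (hk : 1 ≤ k) :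
    x ++ r ++ y ≠ [] := by
  cases x with
  | nil =>
    have := wd_nil h
    omega
  | cons p x => simp

theorem local_width {l r : Word} (hlr : LocalMove l r) {n k : ℕ} (h : width l n = some k) :
    r ≠ [] ∨ 1 ≤ n := by
  cases hlr with
  | exchange p q h => left; simp
  | zigzag₁ i =>
    right
    obtain ⟨n', h3, h4⟩ := wd_cons h
    obtain ⟨n'', h5, h6⟩ := wd_cons h4
    have := wd_birth h3
    have := wd_death h5
    omega
  | zigzag₂ i =>
    right
    obtain ⟨n', h3, h4⟩ := wd_cons h
    have := wd_birth h3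
    omega
  | slideBirth₁ i => left; simp
  | slideBirth₂ i => left; simp
  | slideDeath₁ i => left; simp
  | slideDeath₂ i => left; simp
  | second₁ i =>
    right
    obtain ⟨n', h3, h4⟩ := wd_cons h
    have := wd_pos h3
    omega
  | second₂ i =>
    right
    obtain ⟨n', h3, h4⟩ := wd_cons h
    have := wd_neg h3
    omega
  | third i => left; simp

theorem local_left_ne {l r : Word} (hlr : LocalMove l r) : l ≠ [] := by
  cases hlr <;> simp

theorem Lam_step {D E : Word} (h : RegStep D E) : Lam Raz D = Lam Raz E := by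
  obtain ⟨x, l, r, y, hlr, c1, c2⟩ := h
  apply dl_cancel
  obtain ⟨k, k1, h1, h2, h3⟩ := split3 c1
  obtain ⟨k', k2, h1', h4, h5⟩ := split3 c2
  have n1 : x ++ l ++ y ≠ [] := by
    have := local_left_ne hlr
    simp [this]
  have n2 : x ++ r ++ y ≠ [] := by
    rcases local_width hlr h2 with h | h
    · simp [h]
    · exact ne_nil_of h1 h
  rw [← ev_Lam c1 n1, ← ev_Lam c2 n2, ev_split, ev_split]
  have hk := lv_width (m := 0) h1
  have hx := opW_mem (R := Raz) (m := 0) h1 v0_mem
  rw [h1] at h1'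
  obtain rfl := Option.some.inj h1'
  rw [hk] at h2 h4
  obtain ⟨e1, e2⟩ := local_op hlr h2 h4 hx
  rw [e1, e2]

theorem Lam_regular (D E : Word) (h : RegIsotopic D E) : Lam Raz D = Lam Raz E := by
  induction h with
  | rel D E h => exact Lam_step h
  | refl D => rfl
  | symm D E _ ih => exact ih.symm
  | trans D E F _ _ ih1 ih2 => exact ih1.trans ih2

theorem Lam_birth (b : Bool) (x : Word) (i : ℕ) (y : Word) (h : Closed (x ++ [birth i] ++ y)) :
    Lam Raz (x ++ [birth i, crs b i] ++ y) = cf Raz b * Lam Raz (x ++ [birth i] ++ y) := by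
  obtain ⟨k, k1, h1, h2, h3⟩ := split3 h
  have hk := lv_width (m := 0) h1
  have hx := opW_mem (R := Raz) (m := 0) h1 v0_mem
  obtain ⟨n', h4, h5⟩ := wd_cons h2
  have hb := wd_birth h4
  have w1 : width [birth i, crs b i] k = some k1 := by
    obtain rfl := wd_nil h5
    obtain ⟨h6, rfl⟩ := hb
    cases b <;> simp [width, crs, Piece.width, h6]
  have c1 : Closed (x ++ [birth i, crs b i] ++ y) := closed_of h1 w1 h3
  apply dl_cancel
  rw [mul_left_comm, ← ev_Lam c1 (by simp), ← ev_Lam h (by simp), ev_split, ev_split]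
  have e1 : lv (lv 0 x) [birth i, crs b i] = lv (lv 0 x) [birth i] := by cases b <;> rfl
  have e2 : opW Raz (lv 0 x) [birth i, crs b i] (opW Raz 0 x (v0 Raz)) =
      cf Raz b • opW Raz (lv 0 x) [birth i] (opW Raz 0 x (v0 Raz)) := by
    have := (allRel (R := Raz) (lv 0 x)).1.curl b i (Nat.zero_le _) (by omega) _ hx
    cases b <;> exact this
  rw [e1, e2, map_smul]
  rfl

theorem Lam_death (b : Bool) (x : Word) (i : ℕ) (y : Word) (h : Closed (x ++ [death i] ++ y)) :
    Lam Raz (x ++ [crs b i, death i] ++ y) = cf Raz b * Lam Raz (x ++ [death i] ++ y) := by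
  obtain ⟨k, k1, h1, h2, h3⟩ := split3 h
  have hk := lv_width (m := 0) h1
  have hx := opW_mem (R := Raz) (m := 0) h1 v0_mem
  obtain ⟨n', h4, h5⟩ := wd_cons h2
  have hb := wd_death h4
  have w1 : width [crs b i, death i] k = some k1 := by
    obtain rfl := wd_nil h5
    obtain ⟨h6, rfl⟩ := hb
    cases b <;> simp [width, crs, Piece.width, h6]
  have c1 : Closed (x ++ [crs b i, death i] ++ y) := closed_of h1 w1 h3
  apply dl_cancel
  rw [mul_left_comm, ← ev_Lam c1 (by simp), ← ev_Lam h (by simp), ev_split, ev_split]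
  have e1 : lv (lv 0 x) [crs b i, death i] = lv (lv 0 x) [death i] := by cases b <;> rfl
  have e2 : opW Raz (lv 0 x) [crs b i, death i] (opW Raz 0 x (v0 Raz)) =
      cf Raz b • opW Raz (lv 0 x) [death i] (opW Raz 0 x (v0 Raz)) := by
    obtain ⟨m, hm⟩ : ∃ m', lv 0 x = m' + 1 := ⟨lv 0 x - 1, by omega⟩
    rw [hm] at hx ⊢
    have := Dcurl (R := Raz) (m := m) b (i := i) (by omega) hx
    cases b <;> exact this
  rw [e1, e2, map_smul]
  rfl

theorem Lam_skein (x : Word) (i : ℕ) (y : Word) (h : Closed (x ++ [pos i] ++ y)) :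
    Lam Raz (x ++ [pos i] ++ y) + Lam Raz (x ++ [neg i] ++ y) =
      zVar * (Lam Raz (x ++ y) + Lam Raz (x ++ [death i, birth i] ++ y)) := by
  obtain ⟨k, k1, h1, h2, h3⟩ := split3 h
  have hk := lv_width (m := 0) h1
  have hx := opW_mem (R := Raz) (m := 0) h1 v0_mem
  obtain ⟨n', h4, h5⟩ := wd_cons h2
  obtain ⟨h6, rfl⟩ := wd_pos h4
  obtain rfl := wd_nil h5
  have w1 : width [neg i] k1 = some k1 := by simp [width, Piece.width, h6]
  have w2 : width ([] : Word) k1 = some k1 := rfl
  have w3 : width [death i, birth i] k1 = some k1 := by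
    have : i ≤ k1 - 2 := by omega
    simp [width, Piece.width, h6, this]
    omega
  have c1 : Closed (x ++ [neg i] ++ y) := closed_of h1 w1 h3
  have c2 : Closed (x ++ [] ++ y) := closed_of h1 w2 h3
  have c3 : Closed (x ++ [death i, birth i] ++ y) := closed_of h1 w3 h3
  have n2 : x ++ [] ++ y ≠ [] := ne_nil_of h1 (by omega)
  have e0 : x ++ y = x ++ [] ++ y := by simp
  apply dl_cancel
  rw [e0, mul_add, mul_left_comm, mul_add, ← ev_Lam h (by simp), ← ev_Lam c1 (by simp),
    ← ev_Lam c2 n2, ← ev_Lam c3 (by simp), ev_split, ev_split, ev_split, ev_split]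
  obtain ⟨m, hm⟩ : ∃ m', lv 0 x = m' + 1 := ⟨lv 0 x - 1, by omega⟩
  rw [hm] at hx ⊢
  have e := (allRel (R := Raz) m).2.skein i (by omega) _ hx
  show opW Raz (m + 1) y (X (m + 1) true i (opW Raz 0 x (v0 Raz))) [] +
    opW Raz (m + 1) y (X (m + 1) false i (opW Raz 0 x (v0 Raz))) [] =
    zVar * (opW Raz (m + 1) y (opW Raz 0 x (v0 Raz)) [] +
      opW Raz (m + 1) y (B i (D m i (opW Raz 0 x (v0 Raz)))) [])
  have e' := congrArg (fun t => opW Raz (m + 1) y t []) e
  simp only [map_add, map_smul] at e'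
  exact e'

theorem Lam_rules : KauffmanRules (Lam Raz) where
  regular := Lam_regular
  birthPos x i y h := Lam_birth true x i y h
  birthNeg x i y h := Lam_birth false x i y h
  deathPos x i y h := Lam_death true x i y h
  deathNeg x i y h := Lam_death false x i y h
  skein x i y h := Lam_skein x i y h

theorem Lam_circle : Lam Raz circle = 1 := by
  have : Lam Raz circle = B 0 (v0 Raz) [0] := rfl
  rw [this, B_zero, P_apply, v0, Finsupp.single_eq_same]

end

end Pool.Agent.Helper454.Kauf.Ex
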