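import Pool.Agent.Helper454.Kauf.Exist2

set_option autoImplicit false

namespace Pool.Agent.Helper454.Kauf.Ex

open Par

noncomputable section

set_option linter.unusedSectionVars false

section
variable {R : Type} [CommRing R] [Par R] {m : ℕ}

theorem z_cancel {u v : V R} (h : (z : R) • u = (z : R) • v) : u = v := by
  have e := congrArg (fun w => (zi : R) • w) h
  simpa only [smul_smul, mul_comm (zi : R) z, h3, one_smul] using e

theorem RelD.E (HD : RelD R m) {j : ℕ} (hj : j ≤ 2 * m) {v : V R}
    (hv : v ∈ Val (R := R) (m + 1)) :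
    (z : R) • B j (D m j v) = X (m + 1) true j v + X (m + 1) false j v - (z : R) • v := by
  rw [HD.skein j hj v hv, smul_add]
  abel

theorem RelD.Binj (HD : RelD R m) (hm : 1 ≤ m) {j : ℕ} (hj : j ≤ 2 * m) {u v : V R}
    (hu : u ∈ Val (R := R) m) (hv : v ∈ Val (R := R) m) (h : B j u = B j v) : u = v := by
  by_cases hc : j + 1 ≤ 2 * m
  · rw [← HD.zig1 j hc u hu, h, HD.zig1 j hc v hv]
  · obtain ⟨i, rfl⟩ : ∃ i, j = i + 1 := ⟨j - 1, by omega⟩
    rw [← HD.zig2 i (by omega) u hu, h, HD.zig2 i (by omega) v hv]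

theorem Rel.braidPP (H : Rel R 0 m) (c : Bool) {j : ℕ} (hj : j + 1 ≤ 2 * m) {v : V R}
    (hv : v ∈ Val (R := R) (m + 1)) :
    X (m + 1) c j (X (m + 1) true (j + 1) (X (m + 1) true j v)) =
      X (m + 1) true (j + 1) (X (m + 1) true j (X (m + 1) c (j + 1) v)) := by
  cases c
  · exact mixP (S := (Val (R := R) (m + 1) : Set (V R))) (H.mem false (j + 1) (by omega) (by omega))
      (H.mem true (j + 1) (by omega) hj) (H.pn (j + 1) (by omega) (by omega))
      (H.np j (by omega) (by omega)) (H.mem true j (by omega) (by omega))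
      (fun v hv => (H.third j (by omega) hj v hv).symm) v hv
  · exact H.third j (by omega) hj v hv

/-- sliding a crossing through a death -/
theorem slideD (H : Rel R 0 m) (HD : RelD R m) (b : Bool) {i : ℕ} (hi : i + 1 ≤ 2 * m) {v : V R}
    (hv : v ∈ Val (R := R) (m + 1)) :
    D m i (X (m + 1) b (i + 1) v) = D m (i + 1) (X (m + 1) (!b) i v) := by
  have m1 : ∀ c j, j ≤ 2 * m → ∀ w ∈ Val (R := R) (m + 1),
      X (m + 1) c j w ∈ Val (R := R) (m + 1) := fun c j hj => H.mem c j (by omega) hj
  have key : ∀ w ∈ Val (R := R) (m + 1),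
      D m i (X (m + 1) b (i + 1) (X (m + 1) b i w)) = D m (i + 1) w := by
    intro w hw
    have hx : X (m + 1) b (i + 1) (X (m + 1) b i w) ∈ Val (R := R) (m + 1) :=
      m1 _ _ hi _ (m1 _ _ (by omega) _ hw)
    refine HD.Binj (by omega) (j := i) (by omega) (HD.mem _ (by omega) _ hx)
      (HD.mem _ hi _ hw) ?_
    apply z_cancel
    rw [HD.E (by omega) hx]
    have e1 : B i (D m (i + 1) w) =
        X (m + 1) b (i + 1) (X (m + 1) b i (B (i + 1) (D m (i + 1) w))) := by
      have s1 := H.slide (!b) i (by omega) hi _ (HD.mem _ hi _ hw)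
      rw [Bool.not_not] at s1
      rw [← s1]
      cases b
      · rw [Bool.not_false, H.np _ (by omega) hi _ (B_mem (HD.mem _ hi _ hw) (by omega))]
      · rw [Bool.not_true, H.pn _ (by omega) hi _ (B_mem (HD.mem _ hi _ hw) (by omega))]
    have e2 : (z : R) • X (m + 1) b (i + 1) (X (m + 1) b i (B (i + 1) (D m (i + 1) w))) =
        X (m + 1) b (i + 1) (X (m + 1) b i ((z : R) • B (i + 1) (D m (i + 1) w))) := by
      rw [map_smul, map_smul]
    rw [e1, e2, HD.E hi hw]
    simp only [map_add, map_sub, map_smul]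
    cases b
    · rw [H.braidN true (by omega) hi hw, H.braidN false (by omega) hi hw]
    · rw [H.braidPP true hi hw, H.braidPP false hi hw]
  have e := key _ (m1 (!b) i (by omega) v hv)
  rw [← e]
  cases b
  · rw [Bool.not_false, H.np _ (by omega) (by omega) _ hv]
  · rw [Bool.not_true, H.pn _ (by omega) (by omega) _ hv]

/-- joining the end of an arc with the next strand -/
theorem Q (H : Rel R 0 m) (HD : RelD R m) {l k : ℕ} (h : l + 1 + k ≤ 2 * m) {w : V R}
    (hw : w ∈ Val (R := R) m) :
    D m (l + 1 + k) (N (m + 1) (l + 1) k (B l w)) = Lg m l k w := by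
  induction k generalizing w with
  | zero => exact HD.zig1 l h w hw
  | succ k ih =>
    have hm : N (m + 1) (l + 1) k (B l w) ∈ Val (R := R) (m + 1) :=
      H.N_mem (by omega) (by omega) (B_mem hw (by omega))
    have e := slideD H HD true (i := l + 1 + k) h hm
    rw [Bool.not_true] at e
    rw [N_succ, ← Nat.add_assoc, ← e, H.NX_right true (by omega) (by omega) (by omega)
      (B_mem hw (by omega)), show l + 1 + k + 1 = l + k + 2 by omega,
      H.xb true l (l + k) (by omega) (by omega) w hw, ih (by omega) (H.mem0 _ _ (by omega) _ hw),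
      Lg_succ]

end

end

end Pool.Agent.Helper454.Kauf.Ex
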