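import Pool.Agent.Helper454.Kauf.Exist4

set_option autoImplicit false

namespace Pool.Agent.Helper454.Kauf.Ex

open Par

noncomputable section

set_option linter.unusedSectionVars false

section
variable {R : Type} [CommRing R] [Par R] {m : ℕ}

theorem new_Dmem (H : Rel R 0 m) (HD : RelD R m) (j : ℕ) (hj : j ≤ 2 * (m + 1)) :
    ∀ v ∈ Val (R := R) (m + 1 + 1), D (m + 1) j v ∈ Val (R := R) (m + 1) := by
  refine Val_map _ _ ?_
  intro e he w hw
  cases j with
  | zero =>
    cases e with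
    | zero => rw [D0_zero]; exact Submodule.smul_mem _ _ hw
    | succ e =>
      rw [D0_succ (by omega)]
      exact Submodule.smul_mem _ _ (H.N_mem (by omega) (by omega) hw)
  | succ j =>
    rcases cases4 j e with h | rfl | rfl | ⟨j, rfl, h⟩
    · obtain ⟨e, rfl⟩ : ∃ e', e = e' + 2 := ⟨e - 2, by omega⟩
      rw [D_le _ (by omega)]
      exact P_mem (HD.mem _ (by omega) _ hw) (by omega)
    · rw [D_end (by omega)]
      exact Submodule.smul_mem _ _ (H.L_mem (by omega) hw)
    · rw [D_next (by omega)]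
      exact H.L_mem (by omega) hw
    · rw [D_ge _ h]
      exact P_mem (HD.mem _ (by omega) _ hw) (by omega)

theorem new_zig1 (H : Rel R 0 m) (HD : RelD R m) (i : ℕ) (hi : i + 1 ≤ 2 * (m + 1)) :
    ∀ v ∈ Val (R := R) (m + 1), D (m + 1) (i + 1) (B i v) = v := by
  cases i with
  | zero =>
    intro v hv
    rw [B_zero, D_next (by omega)]
    rfl
  | succ i =>
    refine Val_ext ((D (m + 1) (i + 1 + 1)).comp (B (i + 1))) (LinearMap.id : V R →ₗ[R] V R) ?_
    intro c hc u hu
    show D (m + 1) (i + 1 + 1) (B (i + 1) (P c u)) = P c u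
    rcases Nat.lt_trichotomy i c with h | rfl | h
    · rw [B_le h.le, D_le _ (by omega : i + 1 ≤ c), HD.zig1 i (by omega) u hu]
    · rw [B_le (le_refl i), D_end (e := i + 1) (by omega), H.L_B (by omega) hu, a_ai]
    · obtain ⟨i, rfl⟩ : ∃ i', i = i' + 1 := ⟨i - 1, by omega⟩
      rw [B_ge (by omega : c ≤ i), D_ge _ (by omega : c ≤ i + 1), HD.zig1 i (by omega) u hu]

theorem new_zig2 (H : Rel R 0 m) (HD : RelD R m) (i : ℕ) (hi : i + 1 ≤ 2 * (m + 1)) :
    ∀ v ∈ Val (R := R) (m + 1), D (m + 1) i (B (i + 1) v) = v := by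
  refine Val_ext ((D (m + 1) i).comp (B (i + 1))) (LinearMap.id : V R →ₗ[R] V R) ?_
  intro c hc u hu
  show D (m + 1) i (B (i + 1) (P c u)) = P c u
  cases i with
  | zero =>
    rw [B_le (Nat.zero_le c), B_zero, D0_succ (by omega), N_head, Xn0_zero, map_smul, N_P,
      Nat.zero_add, ai_a]
  | succ i =>
    rcases Nat.lt_trichotomy i c with h | rfl | h
    · rw [B_le (by omega : i + 1 ≤ c), D_le _ (by omega : i ≤ c), HD.zig2 i (by omega) u hu]
    · rw [B_ge (le_refl i), D_next (by omega), H.LB0 (by omega) hu]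
    · obtain ⟨i, rfl⟩ : ∃ i', i = i' + 1 := ⟨i - 1, by omega⟩
      rw [B_ge (by omega : c ≤ i + 1), D_ge _ (by omega : c ≤ i), HD.zig2 i (by omega) u hu]

theorem new_xx0 (H : Rel R 0 m) (i j : ℕ) (hij : i + 2 ≤ j) (hj : j + 1 ≤ 2 * (m + 1)) :
    ∀ v ∈ Val (R := R) (m + 1 + 1),
      X (m + 1 + 1) false (i + 1) (X (m + 1 + 1) false (j + 1) v) =
        X (m + 1 + 1) false (j + 1) (X (m + 1 + 1) false (i + 1) v) := by
  refine Val_ext ((X (m + 1 + 1) false (i + 1)).comp (X (m + 1 + 1) false (j + 1)))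
    ((X (m + 1 + 1) false (j + 1)).comp (X (m + 1 + 1) false (i + 1))) ?_
  intro e he w hw
  show X (m + 1 + 1) false (i + 1) (X (m + 1 + 1) false (j + 1) (P e w)) =
    X (m + 1 + 1) false (j + 1) (X (m + 1 + 1) false (i + 1) (P e w))
  rcases cases4 i e with h | rfl | rfl | ⟨i, rfl, h⟩
  · rw [X_lt _ _ h]
    rcases cases4 j e with h' | rfl | rfl | ⟨j, rfl, h'⟩
    · rw [X_lt _ _ h', X_lt _ _ h', X_lt _ _ h, H.xx _ _ _ _ (by omega) hij (by omega) w hw]
    · have hL := H.L_mem (k := j) (by omega) hw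
      have e1 := H.LX_slide false (s := 0) (k := j) (j := i) (le_refl 0) (by omega) (by omega)
        (by omega) hw
      rw [← Lg_eq] at e1
      rw [Xn_end, Xn_end, map_add, map_neg, map_smul, map_add, map_smul,
        X_lt _ _ (by omega : i + 1 < j), X_lt _ _ h,
        new_bx H false (j + 1) i (by omega) (by omega) _ hL, e1]
    · rw [Xn_next, Xn_next, X_lt _ _ (by omega : i + 1 < j + 1)]
    · rw [X_ge _ _ h', X_ge _ _ h', X_lt _ _ h, H.xx _ _ _ _ (by omega) (by omega) (by omega) w hw]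
  · obtain ⟨j, rfl⟩ : ∃ j', j = j' + 1 := ⟨j - 1, by omega⟩
    have hL := H.L_mem (k := i) (by omega) hw
    have e1 := H.LX_far false (s := 0) (k := i) (j := j) (le_refl 0) (by omega) (by omega) hw
    rw [← Lg_eq] at e1
    rw [X_ge _ _ (by omega : i + 1 ≤ j), Xn_end, Xn_end, map_add, map_neg, map_smul, map_add,
      map_smul, X_ge _ _ (by omega : i ≤ j), X_ge _ _ (by omega : i + 1 ≤ j),
      new_xb H false (i + 1) j (by omega) (by omega) _ hL, e1]
  · obtain ⟨j, rfl⟩ : ∃ j', j = j' + 1 := ⟨j - 1, by omega⟩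
    rw [Xn_next, X_ge _ _ (by omega : i ≤ j), X_ge _ _ (by omega : i + 1 ≤ j), Xn_next]
  · obtain ⟨j, rfl⟩ : ∃ j', j = j' + 1 := ⟨j - 1, by omega⟩
    rw [X_ge _ _ h, X_ge _ _ (by omega : e ≤ j), X_ge _ _ h, X_ge _ _ (by omega : e ≤ j),
      H.xx _ _ _ _ (by omega) (by omega) (by omega) w hw]

/-- far commutation from the case of two negative crossings -/
theorem xx_of {S : Set (V R)} {A A' C C' : V R →ₗ[R] V R}
    (hA' : ∀ v ∈ S, A' v ∈ S) (hC' : ∀ v ∈ S, C' v ∈ S) (hA : ∀ v ∈ S, A v ∈ S)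
    (hC : ∀ v ∈ S, C v ∈ S)
    (a2 : ∀ v ∈ S, A' (A v) = v) (a1 : ∀ v ∈ S, A (A' v) = v)
    (c2 : ∀ v ∈ S, C' (C v) = v) (c1 : ∀ v ∈ S, C (C' v) = v)
    (h : ∀ v ∈ S, A (C v) = C (A v)) (v : V R) (hv : v ∈ S) :
    A' (C v) = C (A' v) ∧ A (C' v) = C' (A v) ∧ A' (C' v) = C' (A' v) := by
  have k1 : ∀ v ∈ S, A' (C v) = C (A' v) := fun v hv => commInv (A := A) (A' := A') hA' hC a2 a1 h v hv
  refine ⟨k1 v hv, ?_, ?_⟩
  · exact (commInv (A := C) (A' := C') (C := A) hC' hA c2 c1 (fun v hv => (h v hv).symm) v hv).symm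
  · exact (commInv (A := C) (A' := C') (C := A') hC' hA' c2 c1
      (fun v hv => (k1 v hv).symm) v hv).symm

theorem new_xx (H : Rel R 0 m) (b c : Bool) (i j : ℕ) (hij : i + 2 ≤ j)
    (hj : j + 1 ≤ 2 * (m + 1)) :
    ∀ v ∈ Val (R := R) (m + 1 + 1),
      X (m + 1 + 1) b (i + 1) (X (m + 1 + 1) c (j + 1) v) =
        X (m + 1 + 1) c (j + 1) (X (m + 1 + 1) b (i + 1) v) := by
  intro v hv
  have k := xx_of (S := (Val (R := R) (m + 1 + 1) : Set (V R)))
    (new_mem H true i (by omega)) (new_mem H true j (by omega))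
    (new_mem H false i (by omega)) (new_mem H false j (by omega))
    (new_pn H i (by omega)) (new_np H i (by omega)) (new_pn H j (by omega))
    (new_np H j (by omega)) (new_xx0 H i j hij hj) v hv
  cases b
  · cases c
    · exact new_xx0 H i j hij hj v hv
    · exact k.2.1
  · cases c
    · exact k.1
    · exact k.2.2

theorem Rel.pp (H : Rel R 0 m) (HD : RelD R m) {j : ℕ} (hj : j ≤ 2 * m) {v : V R}
    (hv : v ∈ Val (R := R) (m + 1)) :
    X (m + 1) true j (X (m + 1) true j v) =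
      -v + (z : R) • (X (m + 1) true j v + (ai : R) • B j (D m j v)) := by
  have e : X (m + 1) true j v = -X (m + 1) false j v + (z : R) • (v + B j (D m j v)) := by
    rw [← HD.skein j hj v hv]; abel
  have hc := H.curl true j (by omega) hj _ (HD.mem j hj v hv)
  simp only [cf, if_true] at hc
  conv_lhs => rw [e]
  rw [map_add, map_neg, map_smul, map_add, H.pn j (by omega) hj v hv, hc]

theorem new_third (H : Rel R 0 m) (HD : RelD R m) (i : ℕ) (hi : i + 2 ≤ 2 * (m + 1)) :
    ∀ v ∈ Val (R := R) (m + 1 + 1),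
      X (m + 1 + 1) true (i + 1) (X (m + 1 + 1) true (i + 2) (X (m + 1 + 1) true (i + 1) v)) =
        X (m + 1 + 1) true (i + 2) (X (m + 1 + 1) true (i + 1) (X (m + 1 + 1) true (i + 2) v)) := by
  refine Val_ext ((X (m + 1 + 1) true (i + 1)).comp ((X (m + 1 + 1) true (i + 2)).comp
    (X (m + 1 + 1) true (i + 1)))) ((X (m + 1 + 1) true (i + 2)).comp
    ((X (m + 1 + 1) true (i + 1)).comp (X (m + 1 + 1) true (i + 2)))) ?_
  intro e he w hw
  show X (m + 1 + 1) true (i + 1) (X (m + 1 + 1) true (i + 2) (X (m + 1 + 1) true (i + 1) (P e w)))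
    = X (m + 1 + 1) true (i + 2) (X (m + 1 + 1) true (i + 1) (X (m + 1 + 1) true (i + 2) (P e w)))
  rcases cases4 i e with h | rfl | rfl | ⟨i, rfl, h⟩
  · rcases Nat.lt_or_ge (i + 2) e with h2 | h2
    · have k := H.third i (by omega) (by omega) w hw
      rw [X_lt _ _ h, X_lt _ _ h2, X_lt _ _ h, k, X_lt _ _ h2, X_lt _ _ h, X_lt _ _ h2]
    · obtain rfl : e = i + 2 := by omega
      rw [X_lt _ _ h, Xp_end _ (i + 1), Xp_end, Xp_end _ (i + 1), Xp_end, X_ge _ _ (le_refl i)]
  · -- `e = i + 1`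
    have hL := H.L_mem (k := i + 1) (by omega) hw
    have s1 := new_slide H false i (by omega) _ hL
    rw [Bool.not_false] at s1
    rw [Xp_end, X_ge _ _ (le_refl i), Xp_next, Xp_next _ (i + 1)]
    simp only [map_add, map_neg, map_smul]
    rw [X_lt _ _ (by omega : i + 1 < i + 1 + 1), Xp_end _ i, ← s1, Xp_end _ (i + 1),
      X_ge _ _ (le_refl i), new_pn H (i + 1) (by omega) _ (B_mem hL (by omega)), L_succ]
  · -- `e = i`
    have hL := H.L_mem (k := i) (by omega) hw
    have hL1 := H.L_mem (k := i + 1) (by omega) hw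
    have hD := HD.mem i (by omega) w hw
    have s1 := new_slide H false i (by omega) _ hL1
    have s2 := new_slide H true i (by omega) _ hL
    rw [Bool.not_false] at s1
    rw [Bool.not_true] at s2
    have e1 := H.pp HD (j := i) (by omega) hw
    have e2 := new_skein H HD (i + 2) (by omega) _ (B_mem (l := i + 1) hL1 (by omega))
    rw [new_zig1 H HD (i + 1) (by omega) _ hL1] at e2
    have e3 : X (m + 1 + 1) false (i + 2) (B (i + 1) (L (m + 1) (i + 1) w)) =
        -X (m + 1 + 1) true (i + 2) (B (i + 1) (L (m + 1) (i + 1) w)) +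
        (z : R) • (B (i + 1) (L (m + 1) (i + 1) w) + B (i + 2) (L (m + 1) (i + 1) w)) := by
      rw [← e2]; abel
    have l1 : L (m + 1) (i + 1) (X (m + 1) true i w) = -L (m + 1) i w +
        (z : R) • (L (m + 1) (i + 1) w + (ai : R) • P i (D m i w)) := by
      rw [L_succ, e1]
      simp only [map_add, map_neg, map_smul]
      rw [H.LB0 (by omega) hD, ← L_succ]
    have hl : X (m + 1 + 1) true (i + 1) (X (m + 1 + 1) true (i + 2)
        (X (m + 1 + 1) true (i + 1) (P i w))) =
        -(-P (i + 2) (X (m + 1) true i w) + (z : R) • (P i w +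
          X (m + 1 + 1) false (i + 2) (B (i + 1) (L (m + 1) (i + 1) w)))) +
        (z : R) • ((-P (i + 1) (X (m + 1) true i w) + (z : R) • (P i (X (m + 1) true i w) +
          B (i + 1) (L (m + 1) (i + 1) w))) + B (i + 2) (L (m + 1) i w)) := by
      rw [Xp_next]
      simp only [map_add, map_neg, map_smul]
      rw [Xp_next _ (i + 1), X_ge _ _ (le_refl i), s2]
      simp only [map_add, map_neg, map_smul]
      rw [X_lt _ _ (by omega : i + 1 < i + 1 + 1), Xp_end _ i, ← s1, Xp_next,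
        new_pn H i (by omega) _ (B_mem hL (by omega)), L_succ]
    have hr : X (m + 1 + 1) true (i + 2) (X (m + 1 + 1) true (i + 1)
        (X (m + 1 + 1) true (i + 2) (P i w))) =
        -(-P (i + 2) (X (m + 1) true i w) + (z : R) • (P (i + 1) (X (m + 1) true i w) +
          B (i + 2) (L (m + 1) (i + 1) (X (m + 1) true i w)))) +
        (z : R) • (P i (X (m + 1) true i (X (m + 1) true i w)) +
          X (m + 1 + 1) true (i + 2) (B (i + 1) (L (m + 1) (i + 1) w))) := by
      rw [X_ge _ _ (le_refl i), Xp_next]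
      simp only [map_add, map_neg, map_smul]
      rw [Xp_next _ (i + 1), X_ge _ _ (le_refl i), L_succ (m + 1) i w]
    rw [hl, hr, e3, l1, e1]
    simp only [map_add, map_neg, map_smul]
    rw [B_ge (le_refl i)]
    module
  · have k := H.third i (by omega) (by omega) w hw
    rw [X_ge _ _ h, X_ge _ _ (by omega : e ≤ i + 1), X_ge _ _ h, k, X_ge _ _ (by omega : e ≤ i + 1),
      X_ge _ _ h, X_ge _ _ (by omega : e ≤ i + 1)]

end

end

end Pool.Agent.Helper454.Kauf.Ex
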