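import Pool.Agent.Helper454.Kauf.Exist6

set_option autoImplicit false

namespace Pool.Agent.Helper454.Kauf.Ex

open Par

noncomputable section

set_option linter.unusedSectionVars false

section
variable {R : Type} [CommRing R] [Par R] {m : ℕ}

/-- the square of a negative crossing -/
theorem Rel.nn {p : ℕ} (H : Rel R p m) (HD : RelD R m) {j : ℕ} (hp : p ≤ j) (hj : j ≤ 2 * m)
    {v : V R} (hv : v ∈ Val (R := R) (m + 1)) :
    X (m + 1) false j (X (m + 1) false j v) =
      -v + (z : R) • (X (m + 1) false j v + (a : R) • B j (D m j v)) := by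
  have e : X (m + 1) false j v = -X (m + 1) true j v + (z : R) • (v + B j (D m j v)) := by
    rw [← HD.skein j hj v hv]; abel
  have hc := H.curl false j hp hj _ (HD.mem j hj v hv)
  simp only [cf, Bool.false_eq_true, if_false] at hc
  conv_lhs => rw [e]
  rw [map_add, map_neg, map_smul, map_add, H.np j hp hj v hv, hc]

theorem zero_bx (H : Rel R 0 m) (HD : RelD R m) (i : ℕ) (hi : i + 2 ≤ 2 * (m + 1)) :
    ∀ v ∈ Val (R := R) (m + 1),
      X (m + 1 + 1) false 0 (B (i + 2) v) = B (i + 2) (X (m + 1) false 0 v) := by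
  have H1 := rel1 H HD
  refine Val_ext ((X (m + 1 + 1) false 0).comp (B (i + 2)))
    ((B (i + 2)).comp (X (m + 1) false 0)) ?_
  intro c hc u hu
  show X (m + 1 + 1) false 0 (B (i + 2) (P c u)) = B (i + 2) (X (m + 1) false 0 (P c u))
  cases c with
  | zero =>
    rw [B_ge (Nat.zero_le i), Xn0_zero, Xn0_zero, map_smul, B_ge (Nat.zero_le i)]
  | succ c =>
    have h1 : B 1 u ∈ Val (R := R) (m + 1) := B_mem hu (by omega)
    rw [Xn0_succ m c]
    by_cases h : c + 1 ≤ i
    · rw [B_ge h, Xn0_succ, ← H1.NB_right (s := 2) (k := c) (l := i + 2) (by omega) (by omega)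
        (by omega) h1, bb (by omega : 1 ≤ i) (by omega) hu]
    · rw [B_le (by omega : i + 1 ≤ c + 1), Xn0_succ (m + 1) (c + 2),
        ← H1.NB_mid (s := 2) (k := c) (l := i + 2) (by omega) (by omega) (by omega) (by omega) h1]
      have := bb (by omega : 1 ≤ i + 1) (by omega) hu (R := R)
      rw [← this]

theorem zero_aux (c : ℕ) (u : V R) :
    N (m + 1 + 1) 2 (c + 1) (B 1 (P 0 u)) =
      -P 1 (P c u) + (z : R) • (P (c + 2) (P 0 u) + P 0 (P c u)) := by
  have e1 : X (m + 1 + 1) false 2 (P 2 (P 0 u)) =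
      -P 1 (P 0 u) + (z : R) • (P 2 (P 0 u) + (a : R) • B 2 (L (m + 1) 1 (P 0 u))) :=
    Xn_end (m + 1) 1 (P 0 u)
  have e2 : L (m + 1) 1 (P 0 u) = (ai : R) • P 0 u := L_P m 0 u
  have e3 : B 2 (P 0 u) = P 0 (P 0 u) := by rw [B_ge (le_refl 0), B_zero]
  have e4 : B 1 (P 0 u) = P 2 (P 0 u) := B1_P 0 u
  have e5 : N (m + 1 + 1) 3 c (P 1 (P 0 u)) = P 1 (P c u) := by
    rw [N_ge (le_refl 1), N_P m c 0, Nat.zero_add]
  have e6 : N (m + 1 + 1) 3 c (P 2 (P 0 u)) = P (c + 2) (P 0 u) := by
    rw [N_P (m + 1) c 2, Nat.add_comm]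
  have e7 : N (m + 1 + 1) 3 c (P 0 (P 0 u)) = P 0 (P c u) := by
    rw [N_ge (Nat.zero_le 1), N_P m c 0, Nat.zero_add]
  rw [e4, N_head, e1, e2, map_smul, a_ai, e3]
  simp only [map_add, map_neg, map_smul]
  rw [e5, e6, e7]

theorem zero_slide1 (m : ℕ) : ∀ v ∈ Val (R := R) (m + 1),
    X (m + 1 + 1) true 1 (B 0 v) = X (m + 1 + 1) false 0 (B 1 v) := by
  refine Val_ext ((X (m + 1 + 1) true 1).comp (B 0))
    ((X (m + 1 + 1) false 0).comp (B 1)) ?_
  intro c hc u hu
  show X (m + 1 + 1) true 1 (B 0 (P c u)) = X (m + 1 + 1) false 0 (B 1 (P c u))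
  have e : X (m + 1 + 1) true 1 (P 0 (P c u)) =
      -P 1 (P c u) + (z : R) • (P 0 (P c u) + B 1 (P c u)) := Xp_next (m + 1) 0 (P c u)
  rw [B_zero, e, B1_P, Xn0_succ (m + 1) (c + 1), zero_aux, add_comm (P 0 (P c u))]

theorem zero_slide2 (m : ℕ) : ∀ v ∈ Val (R := R) (m + 1),
    X (m + 1 + 1) false 1 (B 0 v) = X (m + 1 + 1) true 0 (B 1 v) := by
  refine Val_ext ((X (m + 1 + 1) false 1).comp (B 0))
    ((X (m + 1 + 1) true 0).comp (B 1)) ?_
  intro c hc u hu
  show X (m + 1 + 1) false 1 (B 0 (P c u)) = X (m + 1 + 1) true 0 (B 1 (P c u))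
  have e : X (m + 1 + 1) false 1 (P 0 (P c u)) = P 1 (P c u) := Xn_next (m + 1) 0 (P c u)
  have e2 : N (m + 1) 0 (c + 1) (P 0 u) = (a : R) • P c u := by
    rw [N_head, Xn0_zero, map_smul, N_P m c 0, Nat.zero_add]
  rw [B_zero, e, B1_P, Xp0_succ (m + 1) (c + 1), zero_aux, e2, map_smul, ai_a]
  module

theorem zero_mem (H : Rel R 0 m) (HD : RelD R m) (b : Bool) :
    ∀ v ∈ Val (R := R) (m + 1 + 1), X (m + 1 + 1) b 0 v ∈ Val (R := R) (m + 1 + 1) := by
  have H1 := rel1 H HD
  refine Val_map _ _ ?_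
  intro e he w hw
  cases e with
  | zero =>
    cases b
    · rw [Xn0_zero]; exact Submodule.smul_mem _ _ (P_mem hw (by omega))
    · rw [Xp0_zero]; exact Submodule.smul_mem _ _ (P_mem hw (by omega))
  | succ e =>
    have h1 : N (m + 1 + 1) 2 e (B 1 w) ∈ Val (R := R) (m + 1 + 1) :=
      H1.N_mem (by omega) (by omega) (B_mem hw (by omega))
    cases b
    · rw [Xn0_succ]; exact h1
    · rw [Xp0_succ]
      exact add_mem (neg_mem h1) (Submodule.smul_mem _ _ (add_mem (P_mem hw he)
        (Submodule.smul_mem _ _ (P_mem (H.N_mem (by omega) (by omega) hw) (by omega)))))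

theorem zero_xx0 (H : Rel R 0 m) (HD : RelD R m) (j : ℕ) (hj : j + 2 ≤ 2 * (m + 1)) :
    ∀ v ∈ Val (R := R) (m + 1 + 1),
      X (m + 1 + 1) false 0 (X (m + 1 + 1) false (j + 2) v) =
        X (m + 1 + 1) false (j + 2) (X (m + 1 + 1) false 0 v) := by
  have H1 := rel1 H HD
  have HD1 := relD1 H HD
  refine Val_ext ((X (m + 1 + 1) false 0).comp (X (m + 1 + 1) false (j + 2)))
    ((X (m + 1 + 1) false (j + 2)).comp (X (m + 1 + 1) false 0)) ?_
  intro e he w hw
  show X (m + 1 + 1) false 0 (X (m + 1 + 1) false (j + 2) (P e w)) =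
    X (m + 1 + 1) false (j + 2) (X (m + 1 + 1) false 0 (P e w))
  cases e with
  | zero =>
    rw [X_ge _ _ (Nat.zero_le j), Xn0_zero, Xn0_zero, map_smul, X_ge _ _ (Nat.zero_le j)]
  | succ e =>
    have hB : B 1 w ∈ Val (R := R) (m + 1 + 1) := B_mem hw (by omega)
    rcases cases4 (j + 1) (e + 1) with h | h | h | ⟨j', h, h'⟩
    · rw [X_lt _ _ h, Xn0_succ, Xn0_succ,
        H1.NX_slide false (s := 2) (k := e) (j := j + 2) (by omega) (by omega) (by omega)
          (by omega) hB, H1.xb false 1 (j + 1) (by omega) (by omega) w hw]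
    · obtain rfl : e = j + 1 := by omega
      have hL := H.L_mem (k := j + 1) (by omega) hw
      have hN : N (m + 1 + 1) 2 j (B 1 w) ∈ Val (R := R) (m + 1 + 1) :=
        H1.N_mem (by omega) (by omega) hB
      have e1 : N (m + 1 + 1) 2 (j + 1) (B 1 w) =
          X (m + 1 + 1) false (j + 2) (N (m + 1 + 1) 2 j (B 1 w)) := by
        rw [N_succ, Nat.add_comm 2 j]
      have e2 : X (m + 1) false 0 (L (m + 1) (j + 1) w) = Lg (m + 1) 1 j w := by
        rw [L_head, H.np 0 (le_refl 0) (by omega) _ (H.Lg_mem (by omega) (by omega) hw)]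
      rw [Xn_end (m + 1) (j + 1), Xn0_succ (m + 1) (j + 1), e1,
        H1.nn HD1 (by omega) (by omega) hN, Q1 H HD j (by omega) w hw]
      simp only [map_add, map_neg, map_smul]
      rw [Xn0_succ, Xn0_succ, zero_bx H HD j (by omega) _ hL, e2, e1]
    · obtain rfl : e = j := by omega
      rw [Xn_next (m + 1) (e + 1), Xn0_succ, Xn0_succ, N_succ, Nat.add_comm 2 e]
    · obtain rfl : j' = j := by omega
      rw [X_ge _ _ h', Xn0_succ, Xn0_succ,
        H1.NX_right false (s := 2) (k := e) (j := j' + 2) (by omega) (by omega) (by omega) hB,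
        H1.xb false 1 j' (by omega) (by omega) w hw]

theorem zero_N (H : Rel R 0 m) (HD : RelD R m) {s k : ℕ} (hk : s + 2 + k ≤ 2 * (m + 1) + 1)
    {v : V R} (hv : v ∈ Val (R := R) (m + 1 + 1)) :
    X (m + 1 + 1) false 0 (N (m + 1 + 1) (s + 2) k v) =
      N (m + 1 + 1) (s + 2) k (X (m + 1 + 1) false 0 v) := by
  have H1 := rel1 H HD
  induction k with
  | zero => rfl
  | succ k ih =>
    rw [N_succ, N_succ, ← ih (by omega), show s + 2 + k = (s + k) + 2 by omega,
      zero_xx0 H HD (s + k) (by omega) _ (H1.N_mem (by omega) (by omega) hv)]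

theorem zero_np (H : Rel R 0 m) (HD : RelD R m) :
    ∀ v ∈ Val (R := R) (m + 1 + 1),
      X (m + 1 + 1) false 0 (X (m + 1 + 1) true 0 v) = v := by
  refine Val_ext ((X (m + 1 + 1) false 0).comp (X (m + 1 + 1) true 0))
    (LinearMap.id : V R →ₗ[R] V R) ?_
  intro e he w hw
  show X (m + 1 + 1) false 0 (X (m + 1 + 1) true 0 (P e w)) = P e w
  cases e with
  | zero => rw [Xp0_zero, map_smul, Xn0_zero, ai_a]
  | succ e =>
    have hB : B 1 w ∈ Val (R := R) (m + 1 + 1) := B_mem hw (by omega)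
    have e1 : X (m + 1 + 1) true 1 (P 0 w) = -P 1 w + (z : R) • (P 0 w + B 1 w) :=
      Xp_next (m + 1) 0 w
    have e2 : N (m + 1 + 1) 2 e (P 1 w) = P (e + 1) w := by
      rw [N_P (m + 1) e 1, Nat.add_comm]
    have e3 : N (m + 1 + 1) 2 e (P 0 w) = P 0 (N (m + 1) 0 e w) := N_ge (le_refl 0) w
    rw [Xp0_succ]
    simp only [map_add, map_neg, map_smul]
    rw [zero_N H HD (s := 0) (by omega) hB, ← zero_slide1 m w hw, B_zero, e1, Xn0_succ, Xn0_zero,
      ai_a]
    simp only [map_add, map_neg, map_smul]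
    rw [e2, e3]
    abel

theorem Val_fg (m : ℕ) : (Val (R := R) m).FG := by
  induction m with
  | zero => exact Submodule.fg_span_singleton _
  | succ m ih => exact Submodule.fg_iSup _ fun e => ih.map _

theorem zero_pn (H : Rel R 0 m) (HD : RelD R m) :
    ∀ v ∈ Val (R := R) (m + 1 + 1),
      X (m + 1 + 1) true 0 (X (m + 1 + 1) false 0 v) = v := by
  have hfin : Module.Finite R (Val (R := R) (m + 1 + 1)) :=
    Module.Finite.iff_fg.2 (Val_fg (m + 1 + 1))
  let f : Val (R := R) (m + 1 + 1) →ₗ[R] Val (R := R) (m + 1 + 1) :=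
    (X (m + 1 + 1) false 0).restrict (zero_mem H HD false)
  have hs : Function.Surjective f := by
    intro v
    refine ⟨⟨X (m + 1 + 1) true 0 v, zero_mem H HD true v v.2⟩, ?_⟩
    apply Subtype.ext
    exact zero_np H HD v v.2
  have hi : Function.Injective f := OrzechProperty.injective_of_surjective_endomorphism f hs
  intro v hv
  have hx := zero_mem H HD false v hv
  have e : f ⟨X (m + 1 + 1) true 0 (X (m + 1 + 1) false 0 v), zero_mem H HD true _ hx⟩ =
      f ⟨v, hv⟩ := by
    apply Subtype.ext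
    exact zero_np H HD _ hx
  exact congrArg Subtype.val (hi e)

theorem zero_xx (H : Rel R 0 m) (HD : RelD R m) (b c : Bool) (j : ℕ)
    (hj : j + 2 ≤ 2 * (m + 1)) :
    ∀ v ∈ Val (R := R) (m + 1 + 1),
      X (m + 1 + 1) b 0 (X (m + 1 + 1) c (j + 2) v) =
        X (m + 1 + 1) c (j + 2) (X (m + 1 + 1) b 0 v) := by
  intro v hv
  have k := xx_of (S := (Val (R := R) (m + 1 + 1) : Set (V R)))
    (zero_mem H HD true) (new_mem H true (j + 1) (by omega))
    (zero_mem H HD false) (new_mem H false (j + 1) (by omega))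
    (zero_pn H HD) (zero_np H HD) (new_pn H (j + 1) (by omega))
    (new_np H (j + 1) (by omega)) (zero_xx0 H HD j hj) v hv
  cases b
  · cases c
    · exact zero_xx0 H HD j hj v hv
    · exact k.2.1
  · cases c
    · exact k.1
    · exact k.2.2

theorem zero_bx' (H : Rel R 0 m) (HD : RelD R m) (b : Bool) (i : ℕ) (hi : i + 2 ≤ 2 * (m + 1)) :
    ∀ v ∈ Val (R := R) (m + 1),
      X (m + 1 + 1) b 0 (B (i + 2) v) = B (i + 2) (X (m + 1) b 0 v) := by
  intro v hv
  cases b
  · exact zero_bx H HD i hi v hv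
  · have hx := H.mem true 0 (le_refl 0) (by omega) v hv
    have e := zero_bx H HD i hi _ hx
    rw [H.np 0 (le_refl 0) (by omega) v hv] at e
    rw [← e, zero_pn H HD _ (B_mem hx hi)]

theorem zero_third0 (H : Rel R 0 m) (HD : RelD R m) :
    ∀ v ∈ Val (R := R) (m + 1 + 1),
      X (m + 1 + 1) false 0 (X (m + 1 + 1) false 1 (X (m + 1 + 1) false 0 v)) =
        X (m + 1 + 1) false 1 (X (m + 1 + 1) false 0 (X (m + 1 + 1) false 1 v)) := by
  have H1 := rel1 H HD
  refine Val_ext ((X (m + 1 + 1) false 0).comp ((X (m + 1 + 1) false 1).comp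
    (X (m + 1 + 1) false 0))) ((X (m + 1 + 1) false 1).comp
    ((X (m + 1 + 1) false 0).comp (X (m + 1 + 1) false 1))) ?_
  intro e he w hw
  show X (m + 1 + 1) false 0 (X (m + 1 + 1) false 1 (X (m + 1 + 1) false 0 (P e w))) =
    X (m + 1 + 1) false 1 (X (m + 1 + 1) false 0 (X (m + 1 + 1) false 1 (P e w)))
  have hB : B 1 w ∈ Val (R := R) (m + 1 + 1) := B_mem hw (by omega)
  have n0 : X (m + 1 + 1) false 1 (P 0 w) = P 1 w := Xn_next (m + 1) 0 w
  have n1 : X (m + 1 + 1) false 0 (P 1 w) = B 1 w := Xn0_succ (m + 1) 0 w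
  have c1 : X (m + 1 + 1) false 1 (B 1 w) = (a : R) • B 1 w :=
    new_curl H false 1 (by omega) w hw
  rcases e with _ | _ | e
  · rw [Xn0_zero, map_smul, n0, map_smul, n1, c1]
  · have n2 : X (m + 1 + 1) false 1 (P 1 w) =
        -P 0 w + (z : R) • (P 1 w + (a : R) • B 1 w) := Xn_end (m + 1) 0 w
    have e1 : X (m + 1 + 1) true 1 (P 0 w) = -P 1 w + (z : R) • (P 0 w + B 1 w) :=
      Xp_next (m + 1) 0 w
    have s1 : X (m + 1 + 1) false 0 (B 1 w) = -P 1 w + (z : R) • (P 0 w + B 1 w) := by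
      rw [← zero_slide1 m w hw, B_zero, e1]
    show X (m + 1 + 1) false 0 (X (m + 1 + 1) false 1 (X (m + 1 + 1) false 0 (P 1 w))) =
      X (m + 1 + 1) false 1 (X (m + 1 + 1) false 0 (X (m + 1 + 1) false 1 (P 1 w)))
    rw [n1, c1, n2]
    simp only [map_add, map_neg, map_smul]
    rw [s1, Xn0_zero, n1]
    simp only [map_add, map_neg, map_smul]
    rw [n0, n2, c1]
    module
  · have key : ∀ y ∈ Val (R := R) (m + 1),
        X (m + 1 + 1) false 1 (N (m + 1 + 1) 2 (e + 1) (B 1 y)) = N (m + 1 + 1) 3 e (B 2 y) := by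
      intro y hy
      have hB2 : B 2 y ∈ Val (R := R) (m + 1 + 1) := B_mem hy (by omega)
      have s2 : X (m + 1 + 1) false 2 (B 1 y) = X (m + 1 + 1) true 1 (B 2 y) :=
        H1.slide false 1 (by omega) (by omega) y hy
      rw [N_head, H1.NX_left false (j := 1) (by omega) (by omega) (by omega)
        (H1.mem false 2 (by omega) (by omega) _ (B_mem hy (by omega))), s2,
        H1.np 1 (by omega) (by omega) _ hB2]
    have hx := H.mem false 0 (le_refl 0) (by omega) w hw
    have b2 : X (m + 1 + 1) false 0 (B 2 w) = B 2 (X (m + 1) false 0 w) :=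
      zero_bx H HD 0 (by omega) w hw
    rw [Xn0_succ (m + 1) (e + 1), key w hw,
      zero_N H HD (s := 1) (by omega) (B_mem hw (by omega)), b2,
      X_lt (m + 1) false (j := 0) (by omega : 0 + 1 < e + 1 + 1), Xn0_succ (m + 1) (e + 1),
      key _ hx]

theorem zero_third (H : Rel R 0 m) (HD : RelD R m) :
    ∀ v ∈ Val (R := R) (m + 1 + 1),
      X (m + 1 + 1) true 0 (X (m + 1 + 1) true 1 (X (m + 1 + 1) true 0 v)) =
        X (m + 1 + 1) true 1 (X (m + 1 + 1) true 0 (X (m + 1 + 1) true 1 v)) :=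
  mixN' (S := (Val (R := R) (m + 1 + 1) : Set (V R))) (zero_mem H HD true)
    (new_mem H true 0 (by omega)) (zero_mem H HD false) (zero_pn H HD) (zero_np H HD)
    (new_pn H 0 (by omega)) (new_np H 0 (by omega)) (new_mem H false 0 (by omega))
    (zero_third0 H HD)

theorem rel0 (H : Rel R 0 m) (HD : RelD R m) : Rel R 0 (m + 1) where
  hp := Nat.zero_le 1
  mem0 b j hj := H.mem b j (by omega) (by omega)
  mem b j _ hj := by
    cases j with
    | zero => exact zero_mem H HD b
    | succ j => exact new_mem H b j hj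
  pn j _ hj := by
    cases j with
    | zero => exact zero_pn H HD
    | succ j => exact new_pn H j hj
  np j _ hj := by
    cases j with
    | zero => exact zero_np H HD
    | succ j => exact new_np H j hj
  xx b c i j _ hij hj := by
    cases i with
    | zero =>
      obtain ⟨j, rfl⟩ : ∃ j', j = j' + 2 := ⟨j - 2, by omega⟩
      exact zero_xx H HD b c j hj
    | succ i =>
      obtain ⟨j, rfl⟩ : ∃ j', j = j' + 1 := ⟨j - 1, by omega⟩
      exact new_xx H b c i j (by omega) hj
  third i _ hi := by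
    cases i with
    | zero => exact zero_third H HD
    | succ i => exact new_third H HD i (by omega)
  curl b i _ hi := new_curl H b i hi
  slide b i _ hi := by
    cases i with
    | zero =>
      cases b
      · exact zero_slide2 m
      · exact zero_slide1 m
    | succ i => exact new_slide H b i (by omega)
  xb b i j hij hj := new_xb H b i j hij hj
  bx b i j _ hij hi := by
    cases j with
    | zero =>
      obtain ⟨i, rfl⟩ : ∃ i', i = i' + 2 := ⟨i - 2, by omega⟩
      exact zero_bx' H HD b i hi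
    | succ j => exact new_bx H b i j (by omega) hi

/-! ### the base -/

theorem base_rel : Rel R 0 0 where
  hp := Nat.zero_le 1
  mem0 b j hj := by omega
  mem b j _ hj := by
    obtain rfl : j = 0 := by omega
    refine Val_map _ _ ?_
    intro e he w hw
    obtain rfl : e = 0 := by omega
    cases b
    · rw [Xn0_zero]; exact Submodule.smul_mem _ _ (P_mem hw (by omega))
    · rw [Xp0_zero]; exact Submodule.smul_mem _ _ (P_mem hw (by omega))
  pn j _ hj := by
    obtain rfl : j = 0 := by omega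
    refine Val_ext ((X (0 + 1) true 0).comp (X (0 + 1) false 0)) (LinearMap.id : V R →ₗ[R] V R) ?_
    intro e he w hw
    obtain rfl : e = 0 := by omega
    show X (0 + 1) true 0 (X (0 + 1) false 0 (P 0 w)) = P 0 w
    rw [Xn0_zero, map_smul, Xp0_zero, a_ai]
  np j _ hj := by
    obtain rfl : j = 0 := by omega
    refine Val_ext ((X (0 + 1) false 0).comp (X (0 + 1) true 0)) (LinearMap.id : V R →ₗ[R] V R) ?_
    intro e he w hw
    obtain rfl : e = 0 := by omega
    show X (0 + 1) false 0 (X (0 + 1) true 0 (P 0 w)) = P 0 w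
    rw [Xp0_zero, map_smul, Xn0_zero, ai_a]
  xx b c i j _ hij hj := by omega
  third i _ hi := by omega
  curl b i _ hi := by
    obtain rfl : i = 0 := by omega
    intro v hv
    rw [B_zero]
    cases b
    · exact Xn0_zero _ _
    · exact Xp0_zero _ _
  slide b i _ hi := by omega
  xb b i j hij hj := by omega
  bx b i j _ hij hi := by omega

theorem base_relD : RelD R 0 where
  mem j hj := by
    obtain rfl : j = 0 := by omega
    refine Val_map _ _ ?_
    intro e he w hw
    obtain rfl : e = 0 := by omega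
    rw [D0_zero]
    exact Submodule.smul_mem _ _ hw
  skein j hj := by
    obtain rfl : j = 0 := by omega
    refine Val_ext (X (0 + 1) true 0 + X (0 + 1) false 0)
      ((z : R) • (LinearMap.id + (B 0).comp (D 0 0) : V R →ₗ[R] V R)) ?_
    intro e he w hw
    obtain rfl : e = 0 := by omega
    show X (0 + 1) true 0 (P 0 w) + X (0 + 1) false 0 (P 0 w) =
      (z : R) • (P 0 w + B 0 (D 0 0 (P 0 w)))
    rw [B_zero, Xp0_zero, Xn0_zero, D0_zero, map_smul]
    have h := congrArg (fun t : R => t • P 0 w) (h2 (R := R))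
    simp only [mul_smul, sub_smul, add_smul] at h
    rw [smul_add, h]
    abel
  zig1 i hi := by omega
  zig2 i hi := by omega

/-- all relations, at all levels -/
theorem allRel (m : ℕ) : Rel R 0 m ∧ RelD R m := by
  induction m with
  | zero => exact ⟨base_rel, base_relD⟩
  | succ m ih => exact ⟨rel0 ih.1 ih.2, relD1 ih.1 ih.2⟩

end

end

end Pool.Agent.Helper454.Kauf.Ex
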