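import Pool.Agent.Helper454.Kauf.Exist8

set_option autoImplicit false

namespace Pool.Agent.Helper454.Kauf.Ex

open Par Piece

noncomputable section

set_option linter.unusedSectionVars false

/-! ### widths -/

theorem wd_birth {i n k : ℕ} (h : (birth i).width n = some k) : i ≤ n ∧ k = n + 2 := by
  simp only [Piece.width] at h
  split at h
  · rename_i hi
    exact ⟨hi, (Option.some.inj h).symm⟩
  · exact absurd h (by simp)

theorem wd_death {i n k : ℕ} (h : (death i).width n = some k) : i + 2 ≤ n ∧ k = n - 2 := by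
  simp only [Piece.width] at h
  split at h
  · rename_i hi
    exact ⟨hi, (Option.some.inj h).symm⟩
  · exact absurd h (by simp)

theorem wd_pos {i n k : ℕ} (h : (pos i).width n = some k) : i + 2 ≤ n ∧ k = n := by
  simp only [Piece.width] at h
  split at h
  · rename_i hi
    exact ⟨hi, (Option.some.inj h).symm⟩
  · exact absurd h (by simp)

theorem wd_neg {i n k : ℕ} (h : (neg i).width n = some k) : i + 2 ≤ n ∧ k = n := by
  simp only [Piece.width] at h
  split at h
  · rename_i hi
    exact ⟨hi, (Option.some.inj h).symm⟩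
  · exact absurd h (by simp)

theorem wd_cons {p : Piece} {w : Word} {n k : ℕ} (h : width (p :: w) n = some k) :
    ∃ n', p.width n = some n' ∧ width w n' = some k := by
  simp only [width] at h
  exact Option.bind_eq_some_iff.1 h

theorem wd_append {u w : Word} {n k : ℕ} (h : width (u ++ w) n = some k) :
    ∃ n', width u n = some n' ∧ width w n' = some k := by
  induction u generalizing n with
  | nil => exact ⟨n, rfl, h⟩
  | cons p u ih =>
    obtain ⟨n1, h1, h2⟩ := wd_cons h
    obtain ⟨n2, h3, h4⟩ := ih h2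
    refine ⟨n2, ?_, h4⟩
    simp only [width]
    rw [h1]
    exact h3

theorem wd_nil {n k : ℕ} (h : width [] n = some k) : k = n := (Option.some.inj h).symm

/-! ### the operator of a diagram -/

/-- the crossing piece -/
def crs (b : Bool) (i : ℕ) : Piece := if b then pos i else neg i

section
variable {R : Type} [CommRing R] [Par R] {m : ℕ}

def pc (R : Type) [CommRing R] [Par R] (m : ℕ) : Piece → V R →ₗ[R] V R
  | birth i => B i
  | death i => D (m - 1) i
  | pos i => X m true i
  | neg i => X m false i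

def nx (m : ℕ) : Piece → ℕ
  | birth _ => m + 1
  | death _ => m - 1
  | pos _ => m
  | neg _ => m

def lv : ℕ → Word → ℕ
  | m, [] => m
  | m, p :: w => lv (nx m p) w

def opW (R : Type) [CommRing R] [Par R] : ℕ → Word → V R →ₗ[R] V R
  | _, [] => LinearMap.id
  | m, p :: w => (opW R (nx m p) w).comp (pc R m p)

theorem opW_nil (m : ℕ) (v : V R) : opW R m [] v = v := rfl
theorem opW_cons (m : ℕ) (p : Piece) (w : Word) (v : V R) :
    opW R m (p :: w) v = opW R (nx m p) w (pc R m p v) := rfl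

theorem lv_append (m : ℕ) (u w : Word) : lv m (u ++ w) = lv (lv m u) w := by
  induction u generalizing m with
  | nil => rfl
  | cons p u ih => exact ih _

theorem opW_append (m : ℕ) (u w : Word) (v : V R) :
    opW R m (u ++ w) v = opW R (lv m u) w (opW R m u v) := by
  induction u generalizing m v with
  | nil => rfl
  | cons p u ih => exact ih _ _

theorem nx_width {p : Piece} {k : ℕ} (h : p.width (2 * m) = some k) : k = 2 * nx m p := by
  cases p with
  | birth i => obtain ⟨h1, h2⟩ := wd_birth h; show k = 2 * (m + 1); omega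
  | death i => obtain ⟨h1, h2⟩ := wd_death h; show k = 2 * (m - 1); omega
  | pos i => obtain ⟨h1, h2⟩ := wd_pos h; exact h2
  | neg i => obtain ⟨h1, h2⟩ := wd_neg h; exact h2

theorem lv_width {w : Word} {k : ℕ} (h : width w (2 * m) = some k) : k = 2 * lv m w := by
  induction w generalizing m with
  | nil => exact wd_nil h
  | cons p w ih =>
    obtain ⟨n', h1, h2⟩ := wd_cons h
    obtain rfl := nx_width h1
    exact ih h2

theorem crmem (b : Bool) {i : ℕ} (h : i + 2 ≤ 2 * m) {v : V R} (hv : v ∈ Val (R := R) m) :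
    X m b i v ∈ Val (R := R) m := by
  obtain ⟨m, rfl⟩ : ∃ m', m = m' + 1 := ⟨m - 1, by omega⟩
  exact (allRel m).1.mem b i (Nat.zero_le _) (by omega) v hv

theorem pc_mem {p : Piece} {k : ℕ} (h : p.width (2 * m) = some k) {v : V R}
    (hv : v ∈ Val (R := R) m) : pc R m p v ∈ Val (R := R) (nx m p) := by
  cases p with
  | birth i => exact B_mem hv (wd_birth h).1
  | death i =>
    have h1 := (wd_death h).1
    obtain ⟨m, rfl⟩ : ∃ m', m = m' + 1 := ⟨m - 1, by omega⟩
    exact (allRel m).2.mem i (by omega) v hv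
  | pos i => exact crmem true (wd_pos h).1 hv
  | neg i => exact crmem false (wd_neg h).1 hv

theorem opW_mem {w : Word} {k : ℕ} (h : width w (2 * m) = some k) {v : V R}
    (hv : v ∈ Val (R := R) m) : opW R m w v ∈ Val (R := R) (lv m w) := by
  induction w generalizing m v with
  | nil => exact hv
  | cons p w ih =>
    obtain ⟨n', h1, h2⟩ := wd_cons h
    obtain rfl := nx_width h1
    exact ih h2 (pc_mem h1 hv)

/-! ### local moves -/

/-- exchange of a birth (left) and another piece -/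
theorem ex_birth {i : ℕ} {q : Piece} {k k' : ℕ} (h : i ≤ q.index)
    (h1 : width [birth i, q.moved (q.index + 2)] (2 * m) = some k)
    (h2 : width [q, birth i] (2 * m) = some k') {v : V R} (hv : v ∈ Val (R := R) m) :
    opW R m [birth i, q.moved (q.index + 2)] v = opW R m [q, birth i] v ∧
      lv m [birth i, q.moved (q.index + 2)] = lv m [q, birth i] := by
  obtain ⟨n', h3, h4⟩ := wd_cons h2
  cases q with
  | birth j =>
    exact ⟨bb h (wd_birth h3).1 hv, rfl⟩
  | death j =>
    have h5 := (wd_death h3).1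
    obtain ⟨m, rfl⟩ : ∃ m', m = m' + 1 := ⟨m - 1, by omega⟩
    exact ⟨DB1 (i := i) (j := j) h (by omega) hv, rfl⟩
  | pos j =>
    have h5 := (wd_pos h3).1
    exact ⟨(allRel m).1.xb true i j h h5 v hv, rfl⟩
  | neg j =>
    have h5 := (wd_neg h3).1
    exact ⟨(allRel m).1.xb false i j h h5 v hv, rfl⟩

theorem ex_cross (b : Bool) {i : ℕ} {q : Piece} {k k' : ℕ} (h : i + 2 ≤ q.index)
    (h1 : width [crs b i, q] (2 * m) = some k)
    (h2 : width [q, crs b i] (2 * m) = some k') {v : V R} (hv : v ∈ Val (R := R) m) :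
    opW R m [crs b i, q] v = opW R m [q, crs b i] v ∧
      lv m [crs b i, q] = lv m [q, crs b i] := by
  obtain ⟨n', h3, h4⟩ := wd_cons h2
  have e0 : ∀ n, pc R n (crs b i) = X n b i := by
    intro n; cases b <;> rfl
  have e1 : ∀ n, nx n (crs b i) = n := by
    intro n; cases b <;> rfl
  have e2 : lv m [crs b i, q] = lv m [q, crs b i] := by
    simp only [lv, e1]
  refine ⟨?_, e2⟩
  simp only [opW_cons, opW_nil, e0, e1]
  cases q with
  | birth j =>
    exact ((allRel m).1.bx b j i (Nat.zero_le _) h (wd_birth h3).1 v hv).symm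
  | death j =>
    have h5 := (wd_death h3).1
    obtain ⟨m, rfl⟩ : ∃ m', m = m' + 1 := ⟨m - 1, by omega⟩
    exact DX2 b (i := i) (j := j) h (by omega) hv
  | pos j =>
    have h5 := (wd_pos h3).1
    obtain ⟨m, rfl⟩ : ∃ m', m = m' + 1 := ⟨m - 1, by omega⟩
    exact ((allRel m).1.xx b true i j (Nat.zero_le _) h (by omega) v hv).symm
  | neg j =>
    have h5 := (wd_neg h3).1
    obtain ⟨m, rfl⟩ : ∃ m', m = m' + 1 := ⟨m - 1, by omega⟩
    exact ((allRel m).1.xx b false i j (Nat.zero_le _) h (by omega) v hv).symm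

theorem ex_death {i : ℕ} {q : Piece} {k k' : ℕ} (h : i + 2 ≤ q.index)
    (h1 : width [death i, q.moved (q.index - 2)] (2 * m) = some k)
    (h2 : width [q, death i] (2 * m) = some k') {v : V R} (hv : v ∈ Val (R := R) m) :
    opW R m [death i, q.moved (q.index - 2)] v = opW R m [q, death i] v ∧
      lv m [death i, q.moved (q.index - 2)] = lv m [q, death i] := by
  obtain ⟨n', h3, h4⟩ := wd_cons h2
  obtain ⟨n'', h5, h6⟩ := wd_cons h1
  have h7 := (wd_death h5).1
  obtain ⟨m, rfl⟩ : ∃ m', m = m' + 1 := ⟨m - 1, by omega⟩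
  cases q with
  | birth j =>
    obtain ⟨j, rfl⟩ : ∃ j', j = j' + 2 := ⟨j - 2, by have : i + 2 ≤ j := h; omega⟩
    have h' : i + 2 ≤ j + 2 := h
    have h8 := (wd_birth h3).1
    exact ⟨(DB2 (i := i) (j := j) (by omega) (by omega) hv).symm, rfl⟩
  | death j =>
    obtain ⟨j, rfl⟩ : ∃ j', j = j' + 2 := ⟨j - 2, by have : i + 2 ≤ j := h; omega⟩
    have h' : i + 2 ≤ j + 2 := h
    have h8 := (wd_death h3).1
    obtain ⟨m, rfl⟩ : ∃ m', m = m' + 1 := ⟨m - 1, by omega⟩
    exact ⟨DD (m := m) (i := i) (j := j) (by omega) (by omega) hv, rfl⟩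
  | pos j =>
    obtain ⟨j, rfl⟩ : ∃ j', j = j' + 2 := ⟨j - 2, by have : i + 2 ≤ j := h; omega⟩
    have h' : i + 2 ≤ j + 2 := h
    have h8 := (wd_pos h3).1
    exact ⟨(DX1 true (i := i) (j := j) (by omega) (by omega) hv).symm, rfl⟩
  | neg j =>
    obtain ⟨j, rfl⟩ : ∃ j', j = j' + 2 := ⟨j - 2, by have : i + 2 ≤ j := h; omega⟩
    have h' : i + 2 ≤ j + 2 := h
    have h8 := (wd_neg h3).1
    exact ⟨(DX1 false (i := i) (j := j) (by omega) (by omega) hv).symm, rfl⟩

theorem local_op {l r : Word} (hlr : LocalMove l r) {k k' : ℕ}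
    (h1 : width l (2 * m) = some k) (h2 : width r (2 * m) = some k') {v : V R}
    (hv : v ∈ Val (R := R) m) : opW R m l v = opW R m r v ∧ lv m l = lv m r := by
  cases hlr with
  | exchange p q h =>
    cases p with
    | birth i => exact ex_birth h h1 h2 hv
    | death i => exact ex_death h h1 h2 hv
    | pos i =>
      have e : q.moved (q.index + (pos i).outs - (pos i).ins) = q := by
        cases q <;> rfl
      rw [e] at h1 ⊢
      exact ex_cross true h h1 h2 hv
    | neg i =>
      have e : q.moved (q.index + (neg i).outs - (neg i).ins) = q := by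
        cases q <;> rfl
      rw [e] at h1 ⊢
      exact ex_cross false h h1 h2 hv
  | zigzag₁ i =>
    obtain ⟨n', h3, h4⟩ := wd_cons h1
    obtain ⟨n'', h5, h6⟩ := wd_cons h4
    obtain ⟨h7, rfl⟩ := wd_birth h3
    have h8 := (wd_death h5).1
    exact ⟨(allRel m).2.zig1 i (by omega) v hv, rfl⟩
  | zigzag₂ i =>
    obtain ⟨n', h3, h4⟩ := wd_cons h1
    obtain ⟨n'', h5, h6⟩ := wd_cons h4
    obtain ⟨h7, rfl⟩ := wd_birth h3
    have h8 := (wd_death h5).1
    exact ⟨(allRel m).2.zig2 i (by omega) v hv, rfl⟩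
  | slideBirth₁ i =>
    obtain ⟨n', h3, h4⟩ := wd_cons h2
    have h7 := (wd_birth h3).1
    exact ⟨(allRel m).1.slide true i (Nat.zero_le _) h7 v hv, rfl⟩
  | slideBirth₂ i =>
    obtain ⟨n', h3, h4⟩ := wd_cons h2
    have h7 := (wd_birth h3).1
    exact ⟨(allRel m).1.slide false i (Nat.zero_le _) h7 v hv, rfl⟩
  | slideDeath₁ i =>
    obtain ⟨n', h3, h4⟩ := wd_cons h1
    have h7 := (wd_pos h3).1
    obtain ⟨m, rfl⟩ : ∃ m', m = m' + 1 := ⟨m - 1, by omega⟩
    exact ⟨slideD (allRel m).1 (allRel m).2 true (by omega) hv, rfl⟩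
  | slideDeath₂ i =>
    obtain ⟨n', h3, h4⟩ := wd_cons h1
    have h7 := (wd_neg h3).1
    obtain ⟨m, rfl⟩ : ∃ m', m = m' + 1 := ⟨m - 1, by omega⟩
    exact ⟨slideD (allRel m).1 (allRel m).2 false (by omega) hv, rfl⟩
  | second₁ i =>
    obtain ⟨n', h3, h4⟩ := wd_cons h1
    have h7 := (wd_pos h3).1
    obtain ⟨m, rfl⟩ : ∃ m', m = m' + 1 := ⟨m - 1, by omega⟩
    exact ⟨(allRel m).1.np i (Nat.zero_le _) (by omega) v hv, rfl⟩
  | second₂ i =>
    obtain ⟨n', h3, h4⟩ := wd_cons h1
    have h7 := (wd_neg h3).1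
    obtain ⟨m, rfl⟩ : ∃ m', m = m' + 1 := ⟨m - 1, by omega⟩
    exact ⟨(allRel m).1.pn i (Nat.zero_le _) (by omega) v hv, rfl⟩
  | third i =>
    obtain ⟨n', h3, h4⟩ := wd_cons h1
    obtain ⟨n'', h5, h6⟩ := wd_cons h4
    obtain ⟨h7, rfl⟩ := wd_pos h3
    have h8 := (wd_pos h5).1
    obtain ⟨m, rfl⟩ : ∃ m', m = m' + 1 := ⟨m - 1, by omega⟩
    exact ⟨(allRel m).1.third i (Nat.zero_le _) (by omega) v hv, rfl⟩

end

end

end Pool.Agent.Helper454.Kauf.Ex
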