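import Pool.Agent.Helper454.Kauf.Ops
import Pool.Agent.Helper454.Kauf.Engine

set_option autoImplicit false

namespace Pool.Agent.Helper454.Kauf

open LaurentPolynomial Piece

noncomputable section

set_option linter.unusedSectionVars false

/-! ### evaluation of polynomials -/

def evalZ : ZP → LaurentPolynomial ℤ
  | [] => 0
  | x :: p => C x + T 1 * evalZ p

theorem evalZ_cons (x : ℤ) (p : ZP) : evalZ (ZP.cons x p) = C x + T 1 * evalZ p := by
  cases p with
  | nil =>
    show evalZ (if x = 0 then [] else [x]) = _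
    split
    · rename_i h
      rw [h, evalZ, map_zero, mul_zero, add_zero]
    · rfl
  | cons y p => rfl

theorem evalZ_add (p q : ZP) : evalZ (ZP.add p q) = evalZ p + evalZ q := by
  induction p generalizing q with
  | nil => simp [ZP.add, evalZ]
  | cons x p ih =>
    cases q with
    | nil => simp [ZP.add, evalZ]
    | cons y q =>
      rw [ZP.add, evalZ_cons, ih, evalZ, evalZ, map_add]
      ring

theorem evalZ_neg (p : ZP) : evalZ (ZP.neg p) = -evalZ p := by
  induction p with
  | nil => simp [ZP.neg, evalZ]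
  | cons x p ih =>
    have : ZP.neg (x :: p) = (-x) :: ZP.neg p := rfl
    rw [this, evalZ, ih, evalZ, map_neg]
    ring

def evalP : Poly → Raz
  | [] => 0
  | (i, x) :: p => C (evalZ x) * T i + evalP p

theorem evalP_cons (i : ℤ) (x : ZP) (p : Poly) :
    evalP (Poly.cons i x p) = C (evalZ x) * T i + evalP p := by
  cases x with
  | nil => simp [Poly.cons, evalZ]
  | cons y x => rfl

theorem evalP_add (p q : Poly) : evalP (Poly.add p q) = evalP p + evalP q := by
  induction p generalizing q with
  | nil => simp [Poly.add, evalP]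
  | cons t p ih =>
    obtain ⟨i, x⟩ := t
    rw [Poly.add]
    induction q with
    | nil => simp [Poly.addAux, evalP]
    | cons t q ihq =>
      obtain ⟨j, y⟩ := t
      rw [Poly.addAux]
      split
      · rw [evalP, ih, evalP, evalP]; ring
      · split
        · rename_i h1 h2
          subst h2
          rw [evalP_cons, ih, evalZ_add, evalP, evalP, map_add]
          ring
        · rw [evalP, ihq, evalP, evalP]; ring

theorem evalP_neg (p : Poly) : evalP (Poly.neg p) = -evalP p := by
  induction p with
  | nil => simp [Poly.neg, evalP]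
  | cons t p ih =>
    obtain ⟨i, x⟩ := t
    have : Poly.neg ((i, x) :: p) = (i, ZP.neg x) :: Poly.neg p := rfl
    rw [this, evalP, ih, evalP, evalZ_neg, map_neg]
    ring

theorem evalP_mulZ (p : Poly) : evalP (Poly.mulZ p) = zVar * evalP p := by
  induction p with
  | nil => simp [Poly.mulZ, evalP]
  | cons t p ih =>
    obtain ⟨i, x⟩ := t
    have : Poly.mulZ ((i, x) :: p) = (i, 0 :: x) :: Poly.mulZ p := rfl
    rw [this, evalP, ih, evalP, evalZ, map_zero, zero_add, map_mul, zVar]
    ring

theorem evalP_mulA (k : ℤ) (p : Poly) : evalP (Poly.mulA k p) = aPow k * evalP p := by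
  induction p with
  | nil => simp [Poly.mulA, evalP]
  | cons t p ih =>
    obtain ⟨i, x⟩ := t
    have : Poly.mulA k ((i, x) :: p) = (i + k, x) :: Poly.mulA k p := rfl
    rw [this, evalP, ih, evalP, aPow, T_add]
    ring

section
variable {M : Type} [AddCommGroup M] [Module Raz M] (Λ : Word → M)

def foldS {m : ℕ} (t : ℕ → Vec m → (Word → M)) : ℕ → List (Vec m) → (Word → M)
  | _, [] => 0
  | e, v :: vs => (if e ≤ 2 * m then t e v else 0) + foldS t (e + 1) vs

def sem : (m : ℕ) → Vec m → (Word → M)
  | 0, p => evalP p • extd Λ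
  | m + 1, v => foldS (fun e w => G 0 e (sem m w)) 0 v

theorem sem_zero (m : ℕ) : sem Λ m (zero m) = 0 := by
  cases m with
  | zero =>
    show evalP [] • extd Λ = 0
    rw [evalP, zero_smul]
  | succ m => rfl

theorem foldS_add {m : ℕ} (t : ℕ → Vec m → (Word → M)) (f : Vec m → Vec m → Vec m)
    (h : ∀ e v w, t e (f v w) = t e v + t e w) (e : ℕ) (v w : List (Vec m)) :
    foldS t e (addL f v w) = foldS t e v + foldS t e w := by
  induction v generalizing e w with
  | nil => simp [addL, foldS]
  | cons a v ih =>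
    cases w with
    | nil => simp [addL, foldS]
    | cons b w =>
      rw [addL, foldS, ih, foldS, foldS]
      split
      · rw [h]; abel
      · abel

theorem sem_add (m : ℕ) (v w : Vec m) : sem Λ m (add m v w) = sem Λ m v + sem Λ m w := by
  induction m with
  | zero =>
    show evalP (Poly.add v w) • extd Λ = evalP v • extd Λ + evalP w • extd Λ
    rw [evalP_add, add_smul]
  | succ m ih =>
    show foldS _ 0 (addL (add m) v w) = _
    rw [foldS_add]
    · rfl
    · intro e v w
      show G 0 e (sem Λ m (add m v w)) = _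
      rw [ih, G_lin]

theorem foldS_map {m : ℕ} (t : ℕ → Vec m → (Word → M)) (f : Vec m → Vec m) (c : Raz)
    (h : ∀ e v, t e (f v) = c • t e v) (e : ℕ) (v : List (Vec m)) :
    foldS t e (List.map f v) = c • foldS t e v := by
  induction v generalizing e with
  | nil => simp [foldS]
  | cons a v ih =>
    rw [List.map_cons, foldS, ih, foldS, smul_add]
    split
    · rw [h]
    · rw [smul_zero]

theorem sem_map (g : Poly → Poly) (c : Raz) (h : ∀ p, evalP (g p) = c * evalP p) (m : ℕ)
    (v : Vec m) : sem Λ m (mapV g m v) = c • sem Λ m v := by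
  induction m with
  | zero =>
    show evalP (g v) • extd Λ = c • evalP v • extd Λ
    rw [h, mul_smul]
  | succ m ih =>
    show foldS _ 0 (List.map (mapV g m) v) = _
    rw [foldS_map (c := c)]
    · rfl
    · intro e v
      show G 0 e (sem Λ m (mapV g m v)) = _
      rw [ih, G_smul]

theorem sem_neg (m : ℕ) (v : Vec m) : sem Λ m (negV m v) = -sem Λ m v := by
  rw [negV, sem_map Λ Poly.neg (-1) (fun p => by rw [evalP_neg]; ring), neg_one_smul]

theorem sem_mulZ (m : ℕ) (v : Vec m) : sem Λ m (mulZ m v) = zVar • sem Λ m v :=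
  sem_map Λ Poly.mulZ _ evalP_mulZ m v

theorem sem_mulA (k : ℤ) (m : ℕ) (v : Vec m) : sem Λ m (mulA k m v) = aPow k • sem Λ m v :=
  sem_map Λ (Poly.mulA k) _ (evalP_mulA k) m v

theorem foldS_push {m : ℕ} (e s : ℕ) (v : Vec m) (h : s + e ≤ 2 * m) :
    foldS (fun e w => G 0 e (sem Λ m w)) s (push m e v) = G 0 (s + e) (sem Λ m v) := by
  induction e generalizing s with
  | zero =>
    show (if s ≤ 2 * m then G 0 s (sem Λ m v) else 0) + 0 = _
    rw [if_pos (by omega), add_zero]
    rfl
  | succ e ih =>
    show foldS _ s (zero m :: push m e v) = _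
    rw [foldS, ih (s + 1) (by omega), sem_zero, G_zero']
    rw [show s + (e + 1) = s + 1 + e by omega]
    simp

theorem sem_push (m e : ℕ) (v : Vec m) (h : e ≤ 2 * m) :
    sem Λ (m + 1) (push m e v) = G 0 e (sem Λ m v) := by
  show foldS _ 0 (push m e v) = _
  rw [foldS_push Λ e 0 v (by omega), Nat.zero_add]

theorem fold_sound {m k : ℕ} (term : ℕ → Vec m → Vec k) (φ : (Word → M) →ₗ[Raz] (Word → M))
    (h : ∀ e w, e ≤ 2 * m → sem Λ k (term e w) = φ (G 0 e (sem Λ m w))) (e : ℕ)
    (v : List (Vec m)) :
    sem Λ k (foldV term e v) = φ (foldS (fun e w => G 0 e (sem Λ m w)) e v) := by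
  induction v generalizing e with
  | nil => rw [foldV, foldS, sem_zero, map_zero]
  | cons a v ih =>
    rw [foldV, foldS, sem_add, ih, map_add]
    split
    · rename_i h1
      rw [h e a h1]
    · rw [sem_zero, map_zero]

theorem foldS_mem {m n : ℕ} (t : ℕ → Vec m → (Word → M)) (h : ∀ e w, e ≤ 2 * m → t e w ∈ S Λ n)
    (e : ℕ) (v : List (Vec m)) : foldS t e v ∈ S Λ n := by
  induction v generalizing e with
  | nil => exact Submodule.zero_mem _
  | cons a v ih =>
    rw [foldS]
    refine Submodule.add_mem _ ?_ (ih _)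
    split
    · rename_i h1
      exact h e a h1
    · exact Submodule.zero_mem _

theorem sem_mem (m : ℕ) (v : Vec m) : sem Λ m v ∈ S Λ (2 * m) := by
  induction m with
  | zero =>
    refine Submodule.smul_mem _ _ (Submodule.subset_span ⟨[], rfl, rfl⟩)
  | succ m ih =>
    refine foldS_mem Λ _ ?_ 0 v
    intro e w he
    have := G_mem (l := 0) (ih w) (show 0 + e ≤ 2 * m by omega)
    rwa [show 2 * (m + 1) = 2 * m + 2 by omega]

end

end

end Pool.Agent.Helper454.Kauf
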