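import Pool.Agent.Helper454.Kauf.Sound

set_option autoImplicit false

namespace Pool.Agent.Helper454.Kauf

open LaurentPolynomial Piece

noncomputable section

set_option linter.unusedSectionVars false

section
variable {M : Type} [AddCommGroup M] [Module Raz M] {Λ : Word → M}

/-- `G l g` as a linear map -/
def GLin (l g : ℕ) : (Word → M) →ₗ[Raz] (Word → M) where
  toFun := G l g
  map_add' f h := G_lin l g f h
  map_smul' c f := G_smul l g c f

variable (hΛ : KauffmanRules Λ)
include hΛ

theorem sem_opG (m l g : ℕ) (v : Vec m) (h : l + g ≤ 2 * m) :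
    sem Λ (m + 1) (opG m l g v) = G l g (sem Λ m v) := by
  induction m generalizing l g with
  | zero =>
    obtain rfl : l = 0 := by omega
    obtain rfl : g = 0 := by omega
    exact sem_push Λ 0 0 v (by omega)
  | succ m ih =>
    rw [opG]
    split
    · rename_i hl
      subst hl
      exact sem_push Λ (m + 1) g v (by omega)
    · rename_i hl
      refine fold_sound Λ _ (GLin l g) ?_ 0 v
      intro e w he
      show _ = G l g (G 0 e (sem Λ m w))
      have hf := sem_mem Λ m w
      try dsimp only
      split
      · rename_i h1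
        obtain ⟨l', rfl⟩ : ∃ l', l = l' + 2 := ⟨l - 2, by omega⟩
        rw [sem_push Λ _ _ _ (by omega), Nat.add_sub_cancel, ih _ _ _ (by omega),
          G_far hΛ hf (by omega) (by omega)]
      · rename_i h1
        obtain ⟨l', rfl⟩ : ∃ l', l = l' + 1 := ⟨l - 1, by omega⟩
        split
        · rename_i h2
          rw [sem_push Λ _ _ _ (by omega), Nat.add_sub_cancel, ih _ _ _ (by omega),
            G_nested hΛ hf (by omega) (by omega)]
        · rename_i h2
          obtain ⟨d, rfl⟩ : ∃ d, e = l' + d := ⟨e - l', by omega⟩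
          obtain ⟨k, rfl⟩ : ∃ k, g = d + 1 + k := ⟨g - (d + 1), by omega⟩
          have e1 : l' + 1 - 1 = l' := by omega
          have e2 : d + 1 + k - 1 = d + k := by omega
          have e3 : l' + 1 + (d + 1 + k) - (l' + d) - 2 = k := by omega
          have e4 : l' + d + 1 - (l' + 1) = d := by omega
          have e5 : l' + 1 + (d + 1 + k) = l' + d + k + 2 := by omega
          rw [e3, e1, e2, e4, e5, sem_add, sem_neg, sem_mulZ, sem_add, sem_push Λ _ _ _ (by omega),
            sem_push Λ _ _ _ (by omega), sem_push Λ _ _ _ (by omega), ih _ _ _ (by omega),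
            ih _ _ _ (by omega), ih _ _ _ (by omega), G_cross hΛ hf (by omega)]

theorem sem_seqL {m : ℕ} (z : ℕ → Vec m → Vec m)
    (hz : ∀ j v, j + 2 ≤ 2 * m → sem Λ m (z j v) = st (sem Λ m v) (pos j))
    (k : ℕ) (v : Vec m) (h : k + 1 ≤ 2 * m) :
    sem Λ m (seqL z k v) = Lo k (sem Λ m v) := by
  induction k generalizing v with
  | zero => rfl
  | succ k ih => rw [seqL, ih _ (by omega), hz _ _ (by omega)]; rfl

theorem sem_seqR {m : ℕ} (z : ℕ → Vec m → Vec m)
    (hz : ∀ j v, j + 2 ≤ 2 * m → sem Λ m (z j v) = st (sem Λ m v) (neg j))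
    (k : ℕ) (v : Vec m) (h : k + 1 ≤ 2 * m) :
    sem Λ m (seqR z k v) = Ng 0 k (sem Λ m v) := by
  induction k with
  | zero => rfl
  | succ k ih => rw [seqR, hz _ _ (by omega), ih (by omega), Ng_succ, Nat.zero_add]

theorem sem_opZ (m : ℕ) (b : Bool) (j : ℕ) (v : Vec m) (h : j + 2 ≤ 2 * m) :
    sem Λ m (opZ m b j v) = st (sem Λ m v) (cr b j) := by
  induction m generalizing b j with
  | zero => omega
  | succ m ih =>
    have hL : ∀ (k : ℕ) (w : Vec m), k + 1 ≤ 2 * m →
        sem Λ m (seqL (opZ m true) k w) = Lo k (sem Λ m w) :=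
      fun k w hk => sem_seqL hΛ (opZ m true) (fun j v hj => ih true j v hj) k w hk
    have hR : ∀ (k : ℕ) (w : Vec m), k + 1 ≤ 2 * m →
        sem Λ m (seqR (opZ m false) k w) = Ng 0 k (sem Λ m w) :=
      fun k w hk => sem_seqR hΛ (opZ m false) (fun j v hj => ih false j v hj) k w hk
    rw [opZ]
    refine fold_sound Λ _ (stL (cr b j)) ?_ 0 v
    intro e w he
    show _ = st (G 0 e (sem Λ m w)) (cr b j)
    have hf := sem_mem Λ m w
    try dsimp only
    split
    · rename_i hj
      subst hj
      split
      · rename_i he0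
        subst he0
        rw [sem_push Λ _ _ _ (by omega), sem_mulA, G_smul, G_zero]
        cases b
        · exact (curlBN hΛ hf (by omega)).symm
        · exact (curlBP hΛ hf (by omega)).symm
      · rename_i he0
        obtain ⟨e', rfl⟩ : ∃ e', e = e' + 1 := ⟨e - 1, by omega⟩
        cases b
        · simp only [Bool.false_eq_true, if_false, Nat.add_sub_cancel]
          rw [sem_opG hΛ _ _ _ _ (by omega), cr_false, G_neg_first hΛ hf he]
        · simp only [if_true, Nat.add_sub_cancel]
          rw [sem_add, sem_neg, sem_mulZ, sem_add, sem_opG hΛ _ _ _ _ (by omega),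
            sem_push Λ _ _ _ he, sem_push Λ _ _ _ (by omega), sem_mulA, hR _ _ he, cr_true,
            G_pos_first hΛ hf he]
    · rename_i hj
      split
      · rename_i h1
        obtain ⟨i, rfl⟩ : ∃ i, j = i + 1 := ⟨j - 1, by omega⟩
        rw [Nat.add_sub_cancel, sem_push Λ _ _ _ he, ih _ _ _ (by omega),
          G_cr_slide hΛ hf b (by omega) he]
      · rename_i h1
        split
        · rename_i h2
          obtain ⟨i, rfl⟩ : ∃ i, j = i + 2 := ⟨j - 2, by omega⟩
          rw [Nat.add_sub_cancel, sem_push Λ _ _ _ he, ih _ _ _ (by omega),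
            G_cr_right hΛ hf b (by omega) (by omega)]
        · rename_i h2
          split
          · rename_i h3
            subst h3
            cases b
            · simp only [Bool.false_eq_true, if_false]
              rw [sem_push Λ _ _ _ (by omega), cr_false, G_neg_next hΛ hf]
            · simp only [if_true]
              rw [sem_add, sem_neg, sem_mulZ, sem_add, sem_push Λ _ _ _ (by omega),
                sem_push Λ _ _ _ (by omega), sem_opG hΛ _ _ _ _ (by omega), hL _ _ (by omega),
                cr_true, G_pos_next hΛ hf (by omega)]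
          · rename_i h3
            obtain rfl : j = e := by omega
            obtain ⟨e', rfl⟩ : ∃ e', j = e' + 1 := ⟨j - 1, by omega⟩
            cases b
            · simp only [Bool.false_eq_true, if_false, Nat.add_sub_cancel]
              rw [sem_add, sem_neg, sem_mulZ, sem_add, sem_mulA, sem_push Λ _ _ _ (by omega),
                sem_push Λ _ _ _ (by omega), sem_opG hΛ _ _ _ _ (by omega), hL _ _ (by omega),
                cr_false, G_neg_end hΛ hf he]
            · simp only [if_true, Nat.add_sub_cancel]
              rw [sem_push Λ _ _ _ (by omega), cr_true, G_pos_end hΛ hf he]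

/-- the circle next to the first arc -/
theorem circle_first (w : Vec 1) :
    G 0 0 (sem Λ 0 (opD 0 0 w)) = zVar • G 0 0 (st (sem Λ 1 w) (death 0)) := by
  have h0 : extd Λ ∈ S Λ 0 := Submodule.subset_span ⟨[], rfl, rfl⟩
  have h2 := birth_mem (i := 0) h0 (le_refl 0)
  have key : zVar • st (st (st (extd Λ) (birth 0)) (death 0)) (birth 0) =
      (aPow 1 + aPow (-1) - zVar) • st (extd Λ) (birth 0) := by
    rw [db hΛ h2 (le_refl 0) (by omega), bb hΛ h0 (le_refl 0) (le_refl 0),
      bigon hΛ h2 (by omega)]
  cases w with
  | nil =>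
    show G 0 0 (evalP [] • extd Λ) = zVar • G 0 0 (st (0 : Word → M) (death 0))
    rw [evalP, zero_smul, st_zero, G_zero', smul_zero]
  | cons p ps =>
    have e1 : sem Λ 1 (p :: ps) = st (sem Λ 0 p) (birth 0) := by
      have : ∀ (e : ℕ) (qs : List (Vec 0)), 1 ≤ e →
          foldS (fun e w => G 0 e (sem Λ 0 w)) e qs = 0 := by
        intro e qs he
        induction qs generalizing e with
        | nil => rfl
        | cons q qs ih => rw [foldS, if_neg (by omega), ih _ (by omega), add_zero]
      show (if 0 ≤ 2 * 0 then _ else _) + _ = _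
      rw [this _ _ (le_refl 1), if_pos (le_refl 0), add_zero]
      rfl
    rw [e1]
    show G 0 0 (sem Λ 0 (add 0 (mulA 1 0 p) (add 0 (mulA (-1) 0 p) (negV 0 (mulZ 0 p))))) = _
    rw [sem_add, sem_add, sem_mulA, sem_mulA, sem_neg, sem_mulZ]
    show G 0 0 (aPow 1 • (evalP p • extd Λ) + (aPow (-1) • (evalP p • extd Λ) +
      -(zVar • (evalP p • extd Λ)))) =
      zVar • G 0 0 (st (st (evalP p • extd Λ) (birth 0)) (death 0))
    have r : zVar • st (st (st (evalP p • extd Λ) (birth 0)) (death 0)) (birth 0) =
        evalP p • ((aPow 1 + aPow (-1) - zVar) • st (extd Λ) (birth 0)) := by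
      rw [st_smul, st_smul, st_smul, smul_comm, key]
    rw [G_zero, G_zero, r, st_add, st_add, st_neg]
    simp only [st_smul]
    module

theorem sem_opD (m j : ℕ) (v : Vec (m + 2)) (h : j + 2 ≤ 2 * (m + 2)) :
    sem Λ (m + 1) (opD (m + 1) j v) = zVar • st (sem Λ (m + 2) v) (death j) := by
  induction m generalizing j with
  | zero =>
    rw [opD]
    refine fold_sound Λ _ (zVar • stL (death j)) ?_ 0 v
    intro e w he
    show _ = zVar • st (G 0 e (sem Λ 1 w)) (death j)
    have he2 : e ≤ 2 := he
    have hf := sem_mem Λ 1 w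
    try dsimp only
    split
    · rename_i hj
      subst hj
      split
      · rename_i he0
        subst he0
        rw [sem_add, sem_add, sem_mulA, sem_mulA, sem_neg, sem_mulZ, G_zero,
          bigon hΛ hf (by omega), sub_smul, add_smul]
        abel
      · rename_i he0
        obtain ⟨e', rfl⟩ : ∃ e', e = e' + 1 := ⟨e - 1, by omega⟩
        rw [sem_mulZ, sem_mulA, Nat.add_sub_cancel,
          sem_seqR hΛ _ (fun j v hj => sem_opZ hΛ 1 false j v hj) _ _ (by omega),
          G_death_first hΛ hf (by omega)]
    · rename_i hj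
      split
      · rename_i h1
        obtain ⟨i, rfl⟩ : ∃ i, j = i + 1 := ⟨j - 1, by omega⟩
        obtain ⟨e', rfl⟩ : ∃ e', e = e' + 2 := ⟨e - 2, by omega⟩
        obtain rfl : i = 0 := by omega
        obtain rfl : e' = 0 := by omega
        rw [Nat.add_sub_cancel, sem_push Λ _ _ _ (by omega), G_death_slide hΛ hf (by omega)
          (by omega)]
        exact circle_first hΛ w
      · rename_i h1
        split
        · rename_i h2
          obtain ⟨i, rfl⟩ : ∃ i, j = i + 2 := ⟨j - 2, by omega⟩
          obtain rfl : i = 0 := by omega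
          obtain rfl : e = 0 := by omega
          rw [sem_push Λ _ _ _ (by omega), G_death_right hΛ hf (by omega) (by omega)]
          exact circle_first hΛ w
        · rename_i h2
          split
          · rename_i h3
            subst h3
            rw [sem_mulZ, sem_seqL hΛ _ (fun j v hj => sem_opZ hΛ 1 true j v hj) _ _ (by omega),
              G_death_next hΛ hf (by omega)]
          · rename_i h3
            obtain rfl : j = e := by omega
            obtain ⟨e', rfl⟩ : ∃ e', j = e' + 1 := ⟨j - 1, by omega⟩
            rw [sem_mulZ, sem_mulA, Nat.add_sub_cancel,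
              sem_seqL hΛ _ (fun j v hj => sem_opZ hΛ 1 true j v hj) _ _ (by omega),
              G_death_end hΛ hf (by omega)]
  | succ m ih =>
    rw [opD]
    refine fold_sound Λ _ (zVar • stL (death j)) ?_ 0 v
    intro e w he
    show _ = zVar • st (G 0 e (sem Λ (m + 2) w)) (death j)
    have hf := sem_mem Λ (m + 2) w
    try dsimp only
    split
    · rename_i hj
      subst hj
      split
      · rename_i he0
        subst he0
        rw [sem_add, sem_add, sem_mulA, sem_mulA, sem_neg, sem_mulZ, G_zero,
          bigon hΛ hf (by omega), sub_smul, add_smul]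
        abel
      · rename_i he0
        obtain ⟨e', rfl⟩ : ∃ e', e = e' + 1 := ⟨e - 1, by omega⟩
        rw [sem_mulZ, sem_mulA, Nat.add_sub_cancel,
          sem_seqR hΛ _ (fun j v hj => sem_opZ hΛ (m + 2) false j v hj) _ _ (by omega),
          G_death_first hΛ hf (by omega)]
    · rename_i hj
      split
      · rename_i h1
        obtain ⟨i, rfl⟩ : ∃ i, j = i + 1 := ⟨j - 1, by omega⟩
        obtain ⟨e', rfl⟩ : ∃ e', e = e' + 2 := ⟨e - 2, by omega⟩
        rw [Nat.add_sub_cancel, Nat.add_sub_cancel, sem_push Λ _ _ _ (by omega),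
          ih _ _ (by omega), G_smul, G_death_slide hΛ hf (by omega) (by omega)]
      · rename_i h1
        split
        · rename_i h2
          obtain ⟨i, rfl⟩ : ∃ i, j = i + 2 := ⟨j - 2, by omega⟩
          rw [Nat.add_sub_cancel, sem_push Λ _ _ _ (by omega), ih _ _ (by omega), G_smul,
            G_death_right hΛ hf (by omega) (by omega)]
        · rename_i h2
          split
          · rename_i h3
            subst h3
            rw [sem_mulZ, sem_seqL hΛ _ (fun j v hj => sem_opZ hΛ (m + 2) true j v hj) _ _
              (by omega), G_death_next hΛ hf (by omega)]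
          · rename_i h3
            obtain rfl : j = e := by omega
            obtain ⟨e', rfl⟩ : ∃ e', j = e' + 1 := ⟨j - 1, by omega⟩
            rw [sem_mulZ, sem_mulA, Nat.add_sub_cancel,
              sem_seqL hΛ _ (fun j v hj => sem_opZ hΛ (m + 2) true j v hj) _ _ (by omega),
              G_death_end hΛ hf (by omega)]

end

end

end Pool.Agent.Helper454.Kauf
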